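import Pool.Agent.H89.P4.V2
import Pool.Agent.H52.P4.Chr2
import Pool.Agent.H52.P4.Hat

/-!
# P4: the change of charts, for the visible frame

`zh`: the coordinates of one fixed sample with the same exact point, over the visible frame.
`cMx`: the change of charts, as a matrix. `cht_hat`: the hypothesis `Cht` of `vch`.
-/

set_option autoImplicit false

namespace Pool.P4

open Finset Real MvPolynomial
open Pool.Agent.H49.Ent Pool.Agent.H32.Dense Pool.STK Pool.STAT Pool.MIC.Frm Pool.MIC7 Pool.FRM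
open Pool.GSD Pool.POT
open Pool.MIC.Fru (gw nat_gw nat_gw0 atT_tri atT_deg)
open Pool.LBL (Uni)
open Pool.BFL (Pb)

/-- The coordinates over the visible frame, of one fixed sample with the same exact point. -/
noncomputable def zh (D : NDat2) (i j r a : ℕ) (E : D.Ω → Prop) (P : D.Γ × D.Γ → ℕ → PN)
    (ω : D.Ω) (l : ℕ) : ℝ := zd D i j r a E P (hat D E ω) l

/-- The change of charts, as a matrix. -/
noncomputable def cMx (D : NDat2) (J a₀ z i j r a : ℕ) (E : D.Ω → Prop)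
    (P : D.Γ × D.Γ → ℕ → PN) {c : ℕ} (gs : Fin c → ℕ) (β : D.Γ × D.Γ)
    (σ : ℕ × (D.S × (D.S × D.S))) : Matrix (Fin c) (Fin c) ℝ :=
  Matrix.of fun u v => cM D J a₀ z i j r a E P β σ (gs u) (gs v)

/-- The data of a place, from the cell. -/
theorem Hyp.fx {D : NDat2} {n K K' J a₀ w₀ z M w i j r r' r'' y X a : ℕ} {lam gam : ℕ → ℝ}
    {κ C₁ C C₀ : ℝ} {q : D.Ω → ℝ} {E : D.Ω → Prop} {P : D.Γ × D.Γ → ℕ → PN}
    {S : D.Ω → ℕ → ℕ → ℝ} {c k : ℕ} {ys : Fin k → ℕ} {gs : Fin c → ℕ}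
    (H : Hyp D n K K' J a₀ w₀ z M w i j r r' r'' y X lam gam κ C₁ C q E P S ys gs)
    (hp : Plc n gam y r r' r'' a M i j)
    (hg : Geo D n K' J w₀ z i j r r' r'' gam C₀ (exp (C₀ * z) / 2 ^ (y * z)) q E P S)
    (gd : ∀ ω, E ω → 0 < q ω ∧ GoodS D n K' w₀ z M C₀ ω ∧
      FrP D n K' z i j r C₀ (P (bb D i j r ω)) ω) :
    Fx D n (max K K') K K' J a₀ w₀ z M i j r r' a y lam gam κ C₁ C₀ q E P (sl gam n)
      (gr gam n) where
  ok := H.ok
  k1 := le_max_left _ _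
  k2 := le_max_right _ _
  z1 := H.z1
  lam1 := H.lam1
  num := {
    i1 := by
      have := H.i2
      omega
    j1 := H.j2.le
    r1 := H.r1.trans H.i1
    s1 := fun l hl => by
      have h1 := hp.stp.s1 l hl
      have h2 : (0 : ℝ) ≤ y := Nat.cast_nonneg y
      linarith
    s2 := hp.stp.s2
    dic := fun l h1 h2 => sl_or_gr h1 h2 }
  iM := by
    have := H.i2
    omega
  jM := H.j2
  ai := hp.a1
  rj := H.j1
  ya := hp.stp.s6
  dic := {
    s1 := fun l hl => ⟨hl.1, hl.2.1⟩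
    g1 := fun l hl => ⟨hl.1, hl.2.1⟩
    dis := fun l hl hl' => absurd hl'.2.2 (not_le.2 hl.2.2) }
  fr := gd
  bz := fun ω hω l h1 h2 => hg.bz ω (gd ω hω).1 hω l h1 h2

section

variable {D : NDat2} {n K K' J a₀ w₀ z M w i j r r' r'' y X a : ℕ} {lam gam : ℕ → ℝ}
  {κ C₁ C C₀ : ℝ} {q : D.Ω → ℝ} {E : D.Ω → Prop} {P : D.Γ × D.Γ → ℕ → PN}
  {S : D.Ω → ℕ → ℕ → ℝ} {c k : ℕ} {ys : Fin k → ℕ} {gs : Fin c → ℕ}

open Classical in
/-- The sum over the group. -/
theorem Hyp.sum_gs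
    (H : Hyp D n K K' J a₀ w₀ z M w i j r r' r'' y X lam gam κ C₁ C q E P S ys gs)
    (f : ℕ → ℝ) : ∑ u ∈ (range (n + 1)).filter (gr gam n), f u = ∑ v : Fin c, f (gs v) := by
  have h1 : (range (n + 1)).filter (gr gam n) =
      (univ : Finset (Fin c)).map ⟨gs, H.gs_in.injective⟩ := by
    ext u
    simp only [mem_filter, mem_range, mem_map, mem_univ, true_and, Function.Embedding.coeFn_mk]
    constructor
    · intro h
      exact H.gs_on u h.2
    · rintro ⟨v, rfl⟩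
      exact ⟨by
        have := (H.gs_gr v).2.1
        omega, H.gs_gr v⟩
  rw [h1, Finset.sum_map]
  rfl

end

/-- **The change of charts of the cell.** -/
theorem cht_hat (n K K' c : ℕ) (C₀ C₁ : ℝ) (hC₀ : 0 ≤ C₀) (hC₁ : 0 ≤ C₁) : ∃ c' : ℝ, 0 ≤ c' ∧
    ∀ (D : NDat2) (J a₀ w₀ z M w i j r r' r'' y X a k : ℕ) (lam gam : ℕ → ℝ) (κ C : ℝ)
      (q : D.Ω → ℝ) (E : D.Ω → Prop) (P : D.Γ × D.Γ → ℕ → PN) (S : D.Ω → ℕ → ℕ → ℝ)
      (ys : Fin k → ℕ) (gs : Fin c → ℕ),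
      Hyp D n K K' J a₀ w₀ z M w i j r r' r'' y X lam gam κ C₁ C q E P S ys gs →
      Fx D n (max K K') K K' J a₀ w₀ z M i j r r' a y lam gam κ C₁ C₀ q E P (sl gam n)
        (gr gam n) → c' ≤ C →
      (∀ ω, E ω → ∀ l, 1 ≤ l → l ≤ n →
        |zh D i j r a E P ω l - zd D i j r a E P ω l| ≤ exp (c' * z) * ((2 : ℝ) ^ X)⁻¹) ∧
      Cht D z i j r X C E P (rcd D i j r a) (zh D i j r a E P) ys gs
        (cMx D J a₀ z i j r a E P gs) := by
  obtain ⟨c₁, h1, H1⟩ := chr_dif n (max K K') C₀ C₁ hC₀ hC₁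
  obtain ⟨c₂, h2, H2⟩ := zd_two n (max K K') C₀ C₁ hC₀ hC₁
  obtain ⟨c₃, h3, H3⟩ := slo_conv n (max K K') C₀ C₁ hC₀ hC₁
  obtain ⟨c₄, h4, H4⟩ := rep_rly n (max K K') C₀ C₁ C₀ hC₀ hC₁ hC₀
  obtain ⟨e, he⟩ : ∃ e : ℝ, e = c₁ + c₂ + c₃ + c₄ + 2 + c * (c + c₁) := ⟨_, rfl⟩
  have hcc : (0 : ℝ) ≤ c * (c + c₁) := by positivity
  refine ⟨e, by rw [he]; positivity, ?_⟩
  intro D J a₀ w₀ z M w i j r r' r'' y X a k lam gam κ C q E P S ys gs H hF hC
  have hzr : (1 : ℝ) ≤ z := by exact_mod_cast hF.z1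
  have he' : ∀ t : ℝ, t ≤ e → exp (t * z) ≤ exp (C * z) := fun t ht =>
    ex_mono (ht.trans hC) hzr
  have hX0 : (0 : ℝ) < 2 ^ X := by positivity
  have hX1 : (1 : ℝ) ≤ 2 ^ X := one_le_pow₀ (by norm_num)
  have hya : (2 : ℝ) ^ (y * z) ≤ 2 ^ (a * z) :=
    pow_le_pow_right₀ (by norm_num) (Nat.mul_le_mul_right z hF.ya)
  have hyX := H.yX
  have hE1 := H.e1
  have hCa : exp (C * z) ≤ 2 ^ (a * z) := by
    calc exp (C * z) ≤ exp (C * z) * 2 ^ X := le_mul_of_one_le_right (exp_pos _).le hX1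
      _ ≤ _ := hyX.trans hya
  have hy2 : (1 : ℝ) / 2 ^ (y * z) ≤ ((2 : ℝ) ^ X)⁻¹ := by
    rw [← one_div]
    refine one_div_le_one_div_of_le hX0 ((le_mul_of_one_le_left hX0.le hE1).trans hyX)
  obtain ⟨ι, hι⟩ : ∃ ι : ℝ, ι = ((2 : ℝ) ^ X)⁻¹ := ⟨_, rfl⟩
  have hι0 : 0 ≤ ι := by rw [hι]; positivity
  rw [← hι] at hy2
  -- the pieces
  obtain ⟨a1, a2⟩ := H1 D K K' J a₀ w₀ z M i j r r' a y lam gam κ q E P (sl gam n) (gr gam n) hF
    ((he' c₁ (by rw [he]; linarith)).trans hCa)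
  have a3 := H3 D K K' J a₀ w₀ z M i j r r' a y lam gam κ q E P (sl gam n) (gr gam n) hF
    ((he' c₃ (by rw [he]; linarith)).trans hCa)
  obtain ⟨-, a4⟩ := H4 D K K' J a₀ w₀ z M i j r r' a y lam gam κ q E P (sl gam n) (gr gam n) hF
    ((he' c₄ (by rw [he]; linarith)).trans hCa)
  obtain ⟨x, hx, hxM⟩ := H.Xz
  have hj : j ≤ M := by
    have := hF.jM
    omega
  have near : ∀ ω, E ω → ∀ l, 1 ≤ l → l ≤ n →
      |zh D i j r a E P ω l - zd D i j r a E P ω l| ≤ exp (c₂ * z) * ι := by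
    intro ω hω l hl1 hln
    obtain ⟨b1, b2⟩ := hat_rcd hF.ok hF.iM.le hj r a (fun ω h => (hF.fr ω h).1) hω
    have := H2 D K K' J a₀ w₀ z M i j r r' a y lam gam κ q E P (sl gam n) (gr gam n) hF x
      (by omega) (hat D E ω) ω (hat_E hω).1 hω b1 (b2 (i + x) (by omega) j hj) l hl1 hln
    rw [← hx, div_eq_mul_inv, ← hι] at this
    exact this
  have n1 : (1 : ℝ) ≤ exp (c₁ * z) := ex_one h1 hzr
  have n2 : (1 : ℝ) ≤ exp (c₂ * z) := ex_one h2 hzr
  have n3 : (1 : ℝ) ≤ exp (c₃ * z) := ex_one h3 hzr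
  have n5 : (3 : ℝ) ≤ exp (2 * z) := by
    have := Real.add_one_le_exp (2 * (z : ℝ))
    linarith
  constructor
  · intro ω hω l hl1 hln
    rw [← hι]
    refine (near ω hω l hl1 hln).trans (mul_le_mul_of_nonneg_right ?_ hι0)
    exact ex_mono (by rw [he]; linarith) hzr
  have hmax : ∀ ω, E ω → Uni (cMx D J a₀ z i j r a E P gs (bb D i j r ω) (rcd D i j r a ω)) := by
    intro ω hω
    have tW := (a4 ω hω).1
    have tP := (hF.fr ω hω).2.2.tri
    refine ⟨fun u => ?_, fun u v huv => ?_⟩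
    · unfold cMx
      rw [Matrix.of_apply]
      unfold cM MM
      rw [kap_zero (atT_tri tP _) (atT_tri tW _) le_rfl, if_pos rfl, sub_zero]
    · have hlt : gs u < gs v := H.gs_in huv
      unfold cMx
      rw [Matrix.of_apply]
      unfold cM MM
      rw [kap_zero (atT_tri tP _) (atT_tri tW _) hlt.le, if_neg hlt.ne, sub_zero]
  have hent : ∀ ω, E ω → ∀ u v,
      |cMx D J a₀ z i j r a E P gs (bb D i j r ω) (rcd D i j r a ω) u v| ≤ exp (c₁ * z) := by
    intro ω hω u v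
    exact a1 ω hω (gs u) (H.gs_gr u).2.1 (gs v)
  refine
    { one := fun ω hω u => (hmax ω hω).one u
      low := fun ω hω u v huv => (hmax ω hω).zero u v huv
      ent := fun ω hω u v => (hent ω hω u v).trans (he' c₁ (by rw [he]; linarith))
      inv := ?_
      fw := ?_
      bw := ?_ }
  · intro ω hω u v
    refine (uni_inv (hmax ω hω) (exp_pos _).le (hent ω hω) u v).trans ?_
    have hc : (c : ℝ) + 1 ≤ exp (c * z) := by
      have h5 := Real.add_one_le_exp ((c : ℝ) * z)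
      have h6 : (c : ℝ) ≤ c * z := le_mul_of_one_le_right (Nat.cast_nonneg c) hzr
      linarith
    have h7 : 1 + c * exp (c₁ * z) ≤ exp ((c + c₁) * z) := by
      calc 1 + c * exp (c₁ * z) ≤ (c + 1) * exp (c₁ * z) := by linarith
        _ ≤ exp (c * z) * exp (c₁ * z) := mul_le_mul_of_nonneg_right hc (exp_pos _).le
        _ = _ := by
          rw [← exp_add]
          ring_nf
    have h8 : (0 : ℝ) ≤ 1 + c * exp (c₁ * z) := by positivity
    calc (1 + c * exp (c₁ * z)) ^ c ≤ exp ((c + c₁) * z) ^ c := pow_le_pow_left₀ h8 h7 _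
      _ = exp ((c * (c + c₁)) * z) := by
        rw [← Real.exp_nat_mul]
        ring_nf
      _ ≤ _ := he' _ (by rw [he]; linarith)
  · intro ω ω' hω hω' hbb hT σ hσ hs
    obtain ⟨b1, b2⟩ := a2 ω ω' hω hω' hbb hT σ hσ (fun l hl => by
      obtain ⟨u, hu⟩ := H.ys_on l hl
      rw [← hu]
      exact hs u)
    have hb3 : exp (c₁ * z) * (σ + 1 / 2 ^ (y * z)) ≤ exp (c₁ * z) * (σ + ι) :=
      mul_le_mul_of_nonneg_left (by linarith) (exp_pos _).le
    have hb4 : exp (c₁ * z) * (σ + ι) + 2 * (exp (c₂ * z) * ι) ≤ exp (C * z) * (σ + ι) := by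
      have g1 : exp (c₂ * z) * ι ≤ exp (c₂ * z) * (σ + ι) :=
        mul_le_mul_of_nonneg_left (by linarith) (exp_pos _).le
      have g2 : exp (c₁ * z) + 2 * exp (c₂ * z) ≤ exp (C * z) := by
        calc exp (c₁ * z) + 2 * exp (c₂ * z) ≤ 3 * (exp (c₁ * z) * exp (c₂ * z)) := by nlinarith
          _ ≤ exp (2 * z) * (exp (c₁ * z) * exp (c₂ * z)) :=
            mul_le_mul_of_nonneg_right n5 (by positivity)
          _ = exp ((2 + c₁ + c₂) * z) := by
            rw [← exp_add, ← exp_add]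
            ring_nf
          _ ≤ _ := he' _ (by rw [he]; linarith)
      have g3 := mul_le_mul_of_nonneg_right g2 (show 0 ≤ σ + ι by linarith)
      nlinarith
    constructor
    · intro u
      have hu := H.ys_sl u
      have m1 := near ω hω (ys u) hu.1 hu.2.1.le
      have m2 := near ω' hω' (ys u) hu.1 hu.2.1.le
      have m3 := (b1 (ys u) hu).trans hb3
      rw [← hι]
      refine le_trans ?_ hb4
      rw [abs_le] at m1 m2 m3 ⊢
      constructor <;> linarith [m1.1, m1.2, m2.1, m2.2, m3.1, m3.2]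
    · intro u
      have hu := H.gs_gr u
      have m1 := near ω hω (gs u) hu.1 hu.2.1
      have m2 := near ω' hω' (gs u) hu.1 hu.2.1
      have m3 := (b2 (gs u) hu).trans hb3
      rw [H.sum_gs] at m3
      rw [← hι]
      refine le_trans ?_ hb4
      obtain ⟨s, hs'⟩ : ∃ s : ℝ, s = ∑ v : Fin c, cM D J a₀ z i j r a E P (bb D i j r ω)
        (rcd D i j r a ω) (gs u) (gs v) * (ze D i j r P ω (gs v) - ze D i j r P ω' (gs v)) :=
        ⟨_, rfl⟩
      have hs2 : s = ∑ v : Fin c, cMx D J a₀ z i j r a E P gs (bb D i j r ω)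
        (rcd D i j r a ω) u v * (ze D i j r P ω (gs v) - ze D i j r P ω' (gs v)) := hs'
      rw [← hs2]
      rw [← hs'] at m3
      rw [abs_le] at m1 m2 m3 ⊢
      constructor <;> linarith [m1.1, m1.2, m2.1, m2.2, m3.1, m3.2]
  · intro ω ω' hω hω' hbb hT σ hσ hs u
    have hb : ∀ l, sl gam n l → |zd D i j r a E P ω l - zd D i j r a E P ω' l| ≤
        σ + 2 * (exp (c₂ * z) * ι) := by
      intro l hl
      obtain ⟨v, hv⟩ := H.ys_on l hl
      have m1 := near ω hω l hl.1 hl.2.1.le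
      have m2 := near ω' hω' l hl.1 hl.2.1.le
      have m3 := hs v
      rw [hv] at m3
      rw [abs_le] at m1 m2 m3 ⊢
      constructor <;> linarith [m1.1, m1.2, m2.1, m2.2, m3.1, m3.2]
    refine (a3 ω ω' hω hω' hbb hT _ (by positivity) hb (ys u) (H.ys_sl u)).trans ?_
    rw [← hι]
    have g1 : σ + 2 * (exp (c₂ * z) * ι) + 1 / 2 ^ (y * z) ≤ 3 * exp (c₂ * z) * (σ + ι) := by
      nlinarith [mul_nonneg (show (0 : ℝ) ≤ exp (c₂ * z) - 1 by linarith) hσ,
        mul_nonneg (show (0 : ℝ) ≤ exp (c₂ * z) - 1 by linarith) hι0]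
    calc exp (c₃ * z) * (σ + 2 * (exp (c₂ * z) * ι) + 1 / 2 ^ (y * z)) ≤
        exp (c₃ * z) * (3 * exp (c₂ * z) * (σ + ι)) :=
          mul_le_mul_of_nonneg_left g1 (exp_pos _).le
      _ = (3 * (exp (c₂ * z) * exp (c₃ * z))) * (σ + ι) := by ring
      _ ≤ (exp (2 * z) * (exp (c₂ * z) * exp (c₃ * z))) * (σ + ι) :=
        mul_le_mul_of_nonneg_right (mul_le_mul_of_nonneg_right n5 (by positivity)) (by linarith)
      _ = exp ((2 + c₂ + c₃) * z) * (σ + ι) := by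
        rw [← exp_add, ← exp_add]
        ring_nf
      _ ≤ _ := mul_le_mul_of_nonneg_right (he' _ (by rw [he]; linarith)) (by linarith)

end Pool.P4
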