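import Pool.Agent.H89.P4.V6
import Pool.Agent.H89.P4.V7
import Pool.Agent.H70.P4.Dch
import Pool.Agent.H98.P4.HF

/-!
# P4: the visible chart of a cell

`cell_vch`: `VCh` for the picture of a cell, with the flag. The digits of the near point are the
ones of one fixed sample with the same exact point.
-/

set_option autoImplicit false

namespace Pool.POT

open Finset Real Matrix
open Pool.Agent.H49.Ent Pool.Agent.H32.Dense Pool.STK Pool.FAD
open Pool.QT64 (QH)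

variable {c k : ℕ} {σ υ : Type}

/-- Larger constants. -/
theorem VCh.up {H : QH c k} {X B : ℕ} {n₀ : Fin c} {c0 d δ Γ d' δ' Γ' : ℝ} {s : H.Ω → σ}
    {y : H.Ω → υ} {n : H.Ω → Fin c → ℤ} {M : H.Ω → Matrix (Fin c) (Fin c) ℝ}
    (h : VCh H X B n₀ c0 d δ Γ s y n M) (hd : d ≤ d') (hδ : δ ≤ δ') (hΓ : Γ ≤ Γ') :
    VCh H X B n₀ c0 d' δ' Γ' s y n M where
  ds := h.ds
  dM := h.dM
  one := h.one
  low := h.low
  ent := fun ω i j => (h.ent ω i j).trans hΓ
  inv := fun ω i j => (h.inv ω i j).trans hΓ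
  e1 := h.e1.trans hd
  e2 := h.e2.trans hd
  hF := h.hF.trans (add_le_add le_rfl hδ)
  rel := fun ω ω' a b e1 e2 e3 i => (h.rel ω ω' a b e1 e2 e3 i).trans hΓ
  tr := fun ω ω' a b e1 e2 e3 i => (h.tr ω ω' a b e1 e2 e3 i).trans hΓ
  nf := h.nf

end Pool.POT

namespace Pool.QT64

variable {c k : ℕ}

/-- The flag does not change the times of a line. -/
theorem QH.TM.flag {H : QH c k} {X : ℕ} {s η : ℝ} (h : H.TM X s η) (F : H.Ω → Prop) :
    (H.flag F).TM X s η := h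

end Pool.QT64

namespace Pool.P4

open Finset Real MvPolynomial
open Pool.Agent.H49.Ent Pool.Agent.H32.Dense Pool.STK Pool.STAT Pool.MIC.Frm Pool.MIC7 Pool.FRM
open Pool.GSD Pool.POT Pool.P4N
open Pool.QT64 (QH)
open Pool.QC (nfb)
open Pool.BFL (Pb)

theorem err_up {A A' κ : ℝ} {z X : ℕ} {b : ℝ} (hA : A ≤ A') (hκ : 0 ≤ κ) (hb : 0 ≤ b) :
    err A κ z X b ≤ err A' κ z X b := by
  unfold err
  exact mul_le_mul_of_nonneg_right hA (by positivity)

/-- **The visible chart of a cell.** -/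
theorem cell_vch (n K K' c k B : ℕ) (C₀ C₁ : ℝ) (hB : 1 ≤ B) (hC₀ : 0 ≤ C₀)
    (hC₁ : 0 ≤ C₁) : ∃ F : ℝ, 0 ≤ F ∧ ∀ C : ℝ, F ≤ C → ∀ B' : ℕ, 0 < B' → ∃ A : ℝ, 1 ≤ A ∧
    ∀ (D : NDat2) (J a₀ w₀ z M w i j r r' r'' y a U : ℕ) (lam gam : ℕ → ℝ) (κ h h' ϖ c0 : ℝ)
      (q : D.Ω → ℝ) (E : D.Ω → Prop) (P : D.Γ × D.Γ → ℕ → PN) (S : D.Ω → ℕ → ℕ → ℝ)
      (ys : Fin k → ℕ) (gs : Fin c → ℕ) (n₀ : Fin c) {ζ : Type} (Zc : D.Ω → ζ),
      Hyp D n K K' J a₀ w₀ z M w i j r r' r'' y (B * U * z) lam gam κ C₁ C q E P S ys gs →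
      Plc n gam y r r' r'' a M i j →
      Geo D n K' J w₀ z i j r r' r'' gam C₀ (exp (C₀ * z) / 2 ^ (y * z)) q E P S →
      (∀ ω, E ω → 0 < q ω ∧ GoodS D n K' w₀ z M C₀ ω ∧
        FrP D n K' z i j r C₀ (P (bb D i j r ω)) ω) →
      D.NF n z M B gam h C₁ ϖ q → ϖ ≤ 1 → gs n₀ = n → i + B * U ≤ M →
      ((B * U : ℕ) : ℝ) ≤ gam n * (M - j) →
      Det q Zc (fun ω => (bb D i j r ω, D.T ω)) →
      ((n - 1 : ℕ) : ℝ) * (B * (B * U * z) : ℕ) * Real.log 2 - C * z ≤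
        CH q (D.vd n i j (B * (B * U * z))) Zc →
      (1 - h') * (B * U * z : ℕ) * Real.log 2 - C₁ * z ≤
        CH q (D.nd n i j (B * U * z)) (fun ω => (D.nd n i j 0 ω,
          (D.vd n i j (B * (B * U * z)) ω, Zc ω))) →
      err A κ z (B * U * z) (Pb q (fun ω => ¬ E ω)) ≤
        (h / B - c0) * (B * U * z : ℕ) * Real.log 2 →
      VCh ((qh (c := c) (k := k) D J w z i j r (B * U * z) C P S ys gs q).flag E) (B * U * z) B'
        n₀ c0 (err A κ z (B * U * z) (Pb q (fun ω => ¬ E ω)))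
        ((h' - h) * (B * U * z : ℕ) * Real.log 2 +
          err A κ z (B * U * z) (Pb q (fun ω => ¬ E ω)))
        (exp (A * z)) (fun ω => (E ω, rcd D i j r a ω))
        (yF E (yD z (B * U * z) C (zh D i j r a E P) ys))
        (nF E (nuD z (B * U * z) C (zh D i j r a E P) gs)
          (qh (c := c) (k := k) D J w z i j r (B * U * z) C P S ys gs q).hgt)
        (MF i j r E (rcd D i j r a) (cMx D J a₀ z i j r a E P gs)) := by
  obtain ⟨c', hc', HC⟩ := cht_hat n K K' c C₀ C₁ hC₀ hC₁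
  obtain ⟨Cd, hCd1, hCd2, HD⟩ := dch n (max K K') C₀ hC₀
  obtain ⟨F, hF⟩ : ∃ F : ℝ, F = c' + 3 + 2 * (Cd + c') := ⟨_, rfl⟩
  refine ⟨F, by rw [hF]; positivity, fun C hFC B' hB' => ?_⟩
  have hC : 0 ≤ C := le_trans (by rw [hF]; positivity) hFC
  have hcC : c' ≤ C := by
    rw [hF] at hFC
    linarith
  obtain ⟨Av, hAv, HV⟩ := vch n K K' c k C₁ C
  obtain ⟨An, hAn, HN⟩ := nfv n K K' c k B B' C₁ C C 1 hB hB' hC zero_le_one
  obtain ⟨Ah, hAh, HH⟩ := hf_vis n K K' c k B C₁ C C 1 hB hC zero_le_one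
  obtain ⟨A, hA⟩ : ∃ A : ℝ, A = Av + An + Ah + B' * Av := ⟨_, rfl⟩
  have hB'0 : (0 : ℝ) ≤ B' := Nat.cast_nonneg _
  have hBA : 0 ≤ B' * Av := mul_nonneg hB'0 (by linarith)
  refine ⟨A, by rw [hA]; linarith, ?_⟩
  intro D J a₀ w₀ z M w i j r r' r'' y a U lam gam κ h h' ϖ c0 q E P S ys gs n₀ ζ Zc H hp hg gd
    hNF hϖ hn hU hU' hZc lo1 lo2 herr
  have hFx := H.fx hp hg gd
  have hq := H.ok.isLaw
  have hb0 : 0 ≤ Pb q (fun ω => ¬ E ω) := H.b0
  have hκ := H.κ0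
  obtain ⟨hnear, hcht⟩ := HC D J a₀ w₀ z M w i j r r' r'' y (B * U * z) a k lam gam κ C q E P S
    ys gs H hFx hcC
  -- the visible chart of the fixed samples
  have hdch : Dch D n z i j r (B * U * z) Cd q E P (rcd D i j r a) (zd D i j r a E P) := by
    have hiM : i ≤ M := hFx.iM.le
    have hjM : j ≤ M := by
      have := hFx.jM
      omega
    exact HD D K K' J a₀ w₀ z M i j r a (B * U * z) lam gam κ C₁ q E P H.ok (le_max_left _ _)
      (le_max_right _ _) H.z1 hiM hjM (fun ω hω => ⟨(gd ω hω).1, (gd ω hω).2.2⟩)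
  have hz := H.z1
  have hG : DchX D n z i j r (B * U * z) C q E P (rcd D i j r a) (zh D i j r a E P) := by
    have g1 := dch_mono (dch_x hdch) (show Cd ≤ Cd + c' by linarith)
    have g2 := dch_near g1 (by linarith) hz (zh := zh D i j r a E P) (fun ω _ hω l h1 h2 =>
      (hnear ω hω l h1 h2).trans (mul_le_mul_of_nonneg_right
        (exp_mz' (show c' ≤ Cd + c' by linarith) z) (by positivity)))
    exact dch_mono g2 (by rw [hF] at hFC; linarith)
  have hR : Rcv D n z i j r C q E (rcd D i j r a) (zh D i j r a E P) :=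
    { bs := hG.bs
      sT := fun ω ω' a b e => (hG.sT ω ω' a b e).1
      bd := hG.bd }
  have hexp : (2 : ℝ) ^ (B * U * z) ≤ exp (1 * (z + (B * U * z : ℕ))) := by
    refine (two_pow_exp _).trans (Real.exp_le_exp.mpr ?_)
    have : (0 : ℝ) ≤ z := Nat.cast_nonneg z
    linarith
  have hV : VisD D z (B * U * z) C 1 q E ys gs (rcd D i j r a) (zh D i j r a E P)
      (nuD z (B * U * z) C (zh D i j r a E P) gs) (yD z (B * U * z) C (zh D i j r a E P) ys)
      (rcd D i j r a) :=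
    { nN := fun _ _ _ => rfl
      yY := fun _ _ _ => rfl
      nB := fun ω _ u => (dg_absR _).trans hexp
      yB := fun ω _ u => by
        have h1 : |(yD z (B * U * z) C (zh D i j r a E P) ys ω u : ℝ)| ≤ 2 ^ (B * U * z) := by
          exact_mod_cast dgp_abs _
        exact h1.trans hexp
      dS := fun _ _ _ _ e => e
      Sd := fun _ _ _ _ e => (Prod.ext_iff.mp e).2 }
  have hUM : i + U ≤ M := by
    have : U ≤ B * U := Nat.le_mul_of_pos_left U hB
    omega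
  have hUg : (U : ℝ) ≤ gam n * (M - j) := by
    refine le_trans ?_ hU'
    exact_mod_cast Nat.le_mul_of_pos_left U hB
  have a1 := HN D J a₀ w₀ z M w i j r r' r'' y U lam gam κ h ϖ q E P S ys gs n₀ (rcd D i j r a)
    (zh D i j r a E P) _ _ _ H hG hV hNF hϖ hn hUM hUg
  have a2 := HH D J a₀ w₀ z M w i j r r' r'' y (B * U) lam gam κ h h' ϖ q E P S ys gs
    (rcd D i j r a) (zh D i j r a E P) _ _ _ Zc H hG hV hNF hϖ hU hU' hZc lo1 (by
      have e1 : ((B * U : ℕ) : ℝ) * z = ((B * U * z : ℕ) : ℝ) := by push_cast; ring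
      rw [e1]
      exact lo2)
  -- the errors
  obtain ⟨b, hb⟩ : ∃ b, b = Pb q (fun ω => ¬ E ω) := ⟨_, rfl⟩
  obtain ⟨X, hX⟩ : ∃ X, X = B * U * z := ⟨_, rfl⟩
  rw [← hb] at hb0 herr a1 a2 ⊢
  have e1 : err An κ z (B * U * z) b + B' * err Av κ z (B * U * z) b ≤
      err A κ z (B * U * z) b := by
    have : An + B' * Av ≤ A := by rw [hA]; linarith
    refine le_trans (le_of_eq ?_) (err_up this hκ hb0)
    unfold err
    ring
  have e2 : err Av κ z (B * U * z) b ≤ err A κ z (B * U * z) b :=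
    err_up (by rw [hA]; linarith) hκ hb0
  have e3 : err Ah κ z (B * U * z) b + err Av κ z (B * U * z) b ≤
      err A κ z (B * U * z) b := by
    have : Ah + Av ≤ A := by rw [hA]; linarith
    refine le_trans (le_of_eq ?_) (err_up this hκ hb0)
    unfold err
    ring
  have a3 := HV D J a₀ w₀ z M w i j r r' r'' y (B * U * z) lam gam κ q E P S ys gs H
    (rcd D i j r a) (zh D i j r a E P) (cMx D J a₀ z i j r a E P gs) hR hcht n₀ B'
    ((h' - h) * (B * U * z : ℕ) * Real.log 2 + err Ah κ z (B * U * z) b)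
    ((1 - h / B) * (B * U * z : ℕ) * Real.log 2 + err An κ z (B * U * z) b) c0 a2 a1 (by
      rw [← hb]
      have : (h / B - c0) * ((B * U * z : ℕ) : ℝ) * Real.log 2 =
        (1 - c0) * ((B * U * z : ℕ) : ℝ) * Real.log 2 -
        (1 - h / B) * ((B * U * z : ℕ) : ℝ) * Real.log 2 := by ring
      linarith)
  rw [← hb] at a3
  exact a3.up e2 (by linarith) (exp_mz' (by rw [hA]; linarith) z)

end Pool.P4
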