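import Pool.Agent.H14.P4.Stm

/-!
# P4: a larger constant
-/

set_option autoImplicit false

namespace Pool.P4

open Finset Real MvPolynomial
open Pool.Agent.H49.Ent Pool.Agent.H32.Dense Pool.STK Pool.STAT Pool.MIC.Frm Pool.MIC7 Pool.FRM
open Pool.GSD
open Pool.BFL (Pb)

theorem exp_mz {C C' : ℝ} (h : C ≤ C') (z : ℕ) : exp (C * z) ≤ exp (C' * z) :=
  Real.exp_le_exp.mpr (mul_le_mul_of_nonneg_right h (Nat.cast_nonneg z))

variable {D : NDat2} {n K' J w₀ z M i j r r' r'' : ℕ} {gam : ℕ → ℝ} {C C' τ τ' : ℝ}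
  {q : D.Ω → ℝ} {E : D.Ω → Prop} {P : D.Γ × D.Γ → ℕ → PN} {S : D.Ω → ℕ → ℕ → ℝ} {ω : D.Ω}

theorem FraC.mono (h : FraC D n K' M z C ω) (hC : C ≤ C') : FraC D n K' M z C' ω := by
  obtain ⟨Q, h1, h2, h3, h4⟩ := h
  exact ⟨Q, h1, h2, h3, fun i hi j hj l hl => (h4 i hi j hj l hl).trans
    (div_le_div_of_nonneg_right (exp_mz hC z) (by positivity))⟩

theorem fra_mono (h : Fra D n K' M z C ω) (hC : C ≤ C') : Fra D n K' M z C' ω := by
  obtain ⟨Q, h1, h2, h3, h4⟩ := h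
  exact ⟨Q, h1, h2, h3, fun i hi j hj l hl => (h4 i hi j hj l hl).trans
    (div_le_div_of_nonneg_right (exp_mz hC z) (by positivity))⟩

theorem GoodS.mono (h : GoodS D n K' w₀ z M C ω) (hC : C ≤ C') : GoodS D n K' w₀ z M C' ω :=
  ⟨h.fc.mono hC, fra_mono h.fv hC, h.pc⟩

theorem FrP.mono {P : ℕ → PN} (h : FrP D n K' z i j r C P ω) (hC : C ≤ C') :
    FrP D n K' z i j r C' P ω where
  tri := h.tri
  deg := h.deg
  near := fun i' hi' l hl =>
    ⟨(h.near i' hi' l hl).1.trans (div_le_div_of_nonneg_right (exp_mz hC z) (by positivity)),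
      (h.near i' hi' l hl).2.trans (div_le_div_of_nonneg_right (exp_mz hC z) (by positivity))⟩

theorem Geo.mono (h : Geo D n K' J w₀ z i j r r' r'' gam C τ q E P S) (hC : C ≤ C')
    (hτ0 : 0 ≤ τ) (hτ : τ ≤ τ') : Geo D n K' J w₀ z i j r r' r'' gam C' τ' q E P S where
  tri := h.tri
  deg := h.deg
  near := fun ω hω hE i' hi' l hl =>
    ⟨(h.near ω hω hE i' hi' l hl).1.trans
      (div_le_div_of_nonneg_right (exp_mz hC z) (by positivity)),
      (h.near ω hω hE i' hi' l hl).2.trans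
      (div_le_div_of_nonneg_right (exp_mz hC z) (by positivity))⟩
  bz := fun ω hω hE l h1 h2 => (h.bz ω hω hE l h1 h2).trans (exp_mz hC z)
  bt := fun ω hω hE l h1 h2 w w1 w2 =>
    ⟨(h.bt ω hω hE l h1 h2 w w1 w2).1.trans (exp_mz hC z),
      (h.bt ω hω hE l h1 h2 w w1 w2).2.trans (exp_mz hC z)⟩
  bS := fun ω hω hE u k => (h.bS ω hω hE u k).trans (exp_mz hC z)
  tS := h.tS
  slow := fun ω hω hE l hl w w1 w2 => (h.slow ω hω hE l hl w w1 w2).trans hτ
  grp := fun ω hω hE l hl w w1 w2 => (h.grp ω hω hE l hl w w1 w2).trans hτ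
  left := fun ω ω' a b c d e f w w1 w2 g =>
    ⟨fun l hl => ((h.left ω ω' a b c d e f w w1 w2 g).1 l hl).trans hτ,
      fun l hl => ((h.left ω ω' a b c d e f w w1 w2 g).2 l hl).trans hτ⟩
  left2 := fun ω ω' a b c d e f w w1 w2 g l h1 h2 =>
    ⟨(h.left2 ω ω' a b c d e f w w1 w2 g l h1 h2).1.trans hτ,
      (h.left2 ω ω' a b c d e f w w1 w2 g l h1 h2).2.trans hτ⟩
  right := fun ω ω' a b c d e f g u hu =>
    ⟨(h.right ω ω' a b c d e f g u hu).1.trans hτ,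
      fun k hk => ((h.right ω ω' a b c d e f g u hu).2 k hk).trans hτ⟩
  right2 := fun ω ω' a b c d e f g u hu k hk =>
    (h.right2 ω ω' a b c d e f g u hu k hk).trans hτ
  sheet := fun ω hω hE Bx hB b hb h1 h2 u hu => by
    refine (h.sheet ω hω hE Bx hB b hb h1 h2 u hu).trans ?_
    refine mul_le_mul ?_ hτ hτ0 (Real.exp_pos _).le
    rw [mul_assoc, mul_assoc]
    refine Real.exp_le_exp.mpr (mul_le_mul_of_nonneg_right hC ?_)
    have : (0 : ℝ) ≤ z := Nat.cast_nonneg z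
    nlinarith
  toV := fun ω ω' a b c d e f l h1 h2 δ hδ g =>
    (h.toV ω ω' a b c d e f l h1 h2 δ hδ g).trans (mul_le_mul_of_nonneg_right (exp_mz hC z) hδ)
  ofV := fun ω ω' a b c d e f l h1 h2 δ hδ g =>
    (h.ofV ω ω' a b c d e f l h1 h2 δ hδ g).trans (mul_le_mul_of_nonneg_right (exp_mz hC z) hδ)

theorem LLC.mono (h : LLC D n z M C q) (hC : C ≤ C') : LLC D n z M C' q := by
  intro i j r U h1 h2 h3 h4
  have h5 : C * z ≤ C' * z := mul_le_mul_of_nonneg_right hC (Nat.cast_nonneg z)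
  linarith [h i j r U h1 h2 h3 h4]

theorem Dep.mono (h : Dep D n J w₀ z M i j r C q E P) (hC : C ≤ C') :
    Dep D n J w₀ z M i j r C' q E P where
  ctx := fun i' h1 h2 ω ω' a b c d e f w w1 w2 g l l1 l2 =>
    ⟨(h.ctx i' h1 h2 ω ω' a b c d e f w w1 w2 g l l1 l2).1.trans
      (div_le_div_of_nonneg_right (exp_mz hC z) (by positivity)),
      (h.ctx i' h1 h2 ω ω' a b c d e f w w1 w2 g l l1 l2).2.trans
      (div_le_div_of_nonneg_right (exp_mz hC z) (by positivity))⟩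
  toV := fun i' h1 h2 ω ω' a b c d e f g l l1 l2 δ hδ h' =>
    (h.toV i' h1 h2 ω ω' a b c d e f g l l1 l2 δ hδ h').trans
      (mul_le_mul_of_nonneg_right (exp_mz hC z) hδ)
  ofV := fun i' h1 h2 ω ω' a b c d e f g l l1 l2 δ hδ h' =>
    (h.ofV i' h1 h2 ω ω' a b c d e f g l l1 l2 δ hδ h').trans
      (mul_le_mul_of_nonneg_right (exp_mz hC z) hδ)

end Pool.P4
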