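import Pool.Agent.H89.P4.Few

/-!
# Few values, exponential ranges
-/

set_option autoImplicit false

namespace Pool.P4

open Finset Real
open Pool.Agent.H49.Ent Pool.Agent.H32.Dense Pool.STK Pool.MIC Pool.MIC7
open Pool.POT
open Pool.BFL (Pb)

/-- The constant. -/
noncomputable def aE (m : ℕ) (A : ℝ) : ℝ := 2 * (m * (Real.log 3 + A)) + Real.log 2 + m * A

theorem aE_nonneg (m : ℕ) {A : ℝ} (hA : 0 ≤ A) : 0 ≤ aE m A := by
  have h2 : 0 ≤ Real.log 3 := Real.log_nonneg (by norm_num)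
  have h3 : 0 ≤ Real.log 2 := Real.log_nonneg (by norm_num)
  unfold aE
  positivity

theorem log_floor {x y : ℝ} (hy : 0 ≤ y) (hx : 0 ≤ x) (h : x ≤ exp y) :
    Real.log (2 * (⌊x⌋₊ : ℝ) + 1) ≤ Real.log 3 + y := by
  have h1 : (⌊x⌋₊ : ℝ) ≤ x := Nat.floor_le hx
  have h2 : (0 : ℝ) ≤ (⌊x⌋₊ : ℝ) := Nat.cast_nonneg _
  have h3 : (1 : ℝ) ≤ exp y := Real.one_le_exp hy
  calc Real.log (2 * (⌊x⌋₊ : ℝ) + 1) ≤ Real.log (3 * exp y) := by
        refine Real.log_le_log (by linarith) (by linarith)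
    _ = _ := by rw [Real.log_mul (by norm_num) (Real.exp_pos _).ne', Real.log_exp]

variable {Ω : Type} [Fintype Ω]

/-- **Few values.** -/
theorem few_exp {ι S : Type} [Fintype ι] {p : Ω → ℝ} (hp : IsLaw p) (f : Ω → ι → ℤ)
    (y : Ω → S) (E : Ω → Prop) {A : ℝ} (hA : 0 ≤ A) {z X : ℕ} (Y : ℕ) (hz : 1 ≤ z)
    (h : ∀ ω ω', 0 < p ω → 0 < p ω' → E ω → E ω' → y ω = y ω' → ∀ i,
      |(f ω i : ℝ) - f ω' i| ≤ exp (A * z) * 2 ^ Y)
    (hB : ∀ ω, 0 < p ω → ∀ i, |(f ω i : ℝ)| ≤ exp (A * (z + X))) :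
    CH p f y ≤ Fintype.card ι * (Y * Real.log 2) +
      aE (Fintype.card ι) A * (z + X * Pb p (fun ω => ¬ E ω)) := by
  obtain ⟨m, hm⟩ : ∃ m, m = Fintype.card ι := ⟨_, rfl⟩
  let e := Fintype.equivFin ι
  have h0 := hp.nonneg
  obtain ⟨R, hR⟩ : ∃ R, R = ⌊exp (A * z) * 2 ^ Y⌋₊ := ⟨_, rfl⟩
  obtain ⟨B, hBd⟩ : ∃ B, B = ⌊exp (A * (z + X))⌋₊ := ⟨_, rfl⟩
  have z1 : (1 : ℝ) ≤ z := by exact_mod_cast hz
  have x0 : (0 : ℝ) ≤ X := Nat.cast_nonneg X
  have y0 : (0 : ℝ) ≤ Y := Nat.cast_nonneg Y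
  have g1 : CH p f y = CH p (fun ω (a : Fin (Fintype.card ι)) => f ω (e.symm a)) y := by
    refine CH_congr h0 ?_ ?_ (fun _ _ _ _ h => h) (fun _ _ _ _ h => h)
    · intro ω ω' _ _ hh
      have h1 := (Prod.ext_iff.mp hh).1
      funext a
      exact congrFun h1 (e.symm a)
    · intro ω ω' _ _ hh
      have h1 := (Prod.ext_iff.mp hh).1
      funext a
      have h2 := congrFun h1 (e a)
      simp only [Equiv.symm_apply_apply] at h2
      exact h2
  have g2 := few_ev hp (fun ω (a : Fin (Fintype.card ι)) => f ω (e.symm a)) y E R B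
    (fun ω ω' hω hω' hE hE' hy a => by
      have h1 := h ω ω' hω hω' hE hE' hy (e.symm a)
      have h2 : ((|f ω (e.symm a) - f ω' (e.symm a)| : ℤ) : ℝ) ≤ exp (A * z) * 2 ^ Y := by
        push_cast
        exact h1
      have h3 : |f ω (e.symm a) - f ω' (e.symm a)| =
          ((|f ω (e.symm a) - f ω' (e.symm a)|.toNat : ℕ) : ℤ) :=
        (Int.toNat_of_nonneg (abs_nonneg _)).symm
      rw [h3] at h2 ⊢
      rw [Int.cast_natCast] at h2
      rw [hR]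
      exact_mod_cast Nat.le_floor h2)
    (fun ω hω a => by
      have h1 := hB ω hω (e.symm a)
      have h2 : ((|f ω (e.symm a)| : ℤ) : ℝ) ≤ exp (A * (z + X)) := by
        push_cast
        exact h1
      have h3 : |f ω (e.symm a)| = ((|f ω (e.symm a)|.toNat : ℕ) : ℤ) :=
        (Int.toNat_of_nonneg (abs_nonneg _)).symm
      rw [h3] at h2 ⊢
      rw [Int.cast_natCast] at h2
      rw [hBd]
      exact_mod_cast Nat.le_floor h2)
  obtain ⟨G, hG⟩ : ∃ G, G = CH p (fun ω (a : Fin (Fintype.card ι)) => f ω (e.symm a)) y :=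
    ⟨_, rfl⟩
  rw [g1]
  rw [← hG] at g2 ⊢
  rw [← hm] at g2 ⊢
  obtain ⟨b, hb⟩ : ∃ b, b = Pb p (fun ω => ¬ E ω) := ⟨_, rfl⟩
  have b0 : 0 ≤ b := by
    rw [hb]
    exact Pool.MIC.Pb_nonneg h0 _
  have b1 : b ≤ 1 := by
    rw [hb]
    have := Pool.MIC.Pb_not hp.sum_one (fun ω => ¬ E ω)
    have := Pool.MIC.Pb_nonneg h0 (fun ω => ¬ ¬ E ω)
    linarith
  rw [← hb] at g2 ⊢
  have m0 : (0 : ℝ) ≤ m := Nat.cast_nonneg m
  have l2 : 0 ≤ Real.log 2 := Real.log_nonneg (by norm_num)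
  have l3 : 0 ≤ Real.log 3 := Real.log_nonneg (by norm_num)
  have k1 : Real.log (2 * (R : ℝ) + 1) ≤ Real.log 3 + (A * z + Y * Real.log 2) := by
    rw [hR]
    refine log_floor (by positivity) (by positivity) ?_
    rw [Real.exp_add]
    refine mul_le_mul_of_nonneg_left ?_ (Real.exp_pos _).le
    rw [← Real.log_pow, Real.exp_log (by positivity)]
  have k2 : Real.log (2 * (B : ℝ) + 1) ≤ Real.log 3 + A * (z + X) := by
    rw [hBd]
    exact log_floor (by positivity) (by positivity) le_rfl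
  have xb : 0 ≤ (X : ℝ) * b := mul_nonneg x0 b0
  have k3 : (m : ℝ) * Real.log (2 * R + 1) ≤ m * (Y * Real.log 2) + m * (Real.log 3 + A) * z := by
    have := mul_le_mul_of_nonneg_left k1 m0
    have h4 : (m : ℝ) * Real.log 3 ≤ m * Real.log 3 * z := by
      have : 0 ≤ (m : ℝ) * Real.log 3 := by positivity
      nlinarith
    linarith
  have k4 : b * (m * Real.log (2 * B + 1)) ≤
      m * (Real.log 3 + A) * z + m * A * (X * b) := by
    have h5 : b * (m * Real.log (2 * B + 1)) ≤ b * (m * (Real.log 3 + A * (z + X))) :=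
      mul_le_mul_of_nonneg_left (mul_le_mul_of_nonneg_left k2 m0) b0
    have h6 : 0 ≤ (m : ℝ) * (Real.log 3 + A * z) := by positivity
    have h7 : b * (m * (Real.log 3 + A * z)) ≤ m * (Real.log 3 + A * z) := by nlinarith
    have h4 : (m : ℝ) * Real.log 3 ≤ m * Real.log 3 * z := by
      have : 0 ≤ (m : ℝ) * Real.log 3 := by positivity
      nlinarith
    linarith
  have k5 : Real.log 2 ≤ Real.log 2 * z := by nlinarith
  have k6 : 0 ≤ 2 * (m * (Real.log 3 + A)) + Real.log 2 := by positivity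
  unfold aE
  have k7 : 0 ≤ (2 * (m * (Real.log 3 + A)) + Real.log 2) * (X * b) := mul_nonneg k6 xb
  have k8 : 0 ≤ (m * A) * (z : ℝ) := by positivity
  linarith

/-- Without the event and without the scale. -/
theorem few_exp0 {ι S : Type} [Fintype ι] {p : Ω → ℝ} (hp : IsLaw p) (f : Ω → ι → ℤ)
    (y : Ω → S) (E : Ω → Prop) {A : ℝ} (hA : 0 ≤ A) {z X : ℕ} (hz : 1 ≤ z)
    (h : ∀ ω ω', 0 < p ω → 0 < p ω' → E ω → E ω' → y ω = y ω' → ∀ i,
      |(f ω i : ℝ) - f ω' i| ≤ exp (A * z))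
    (hB : ∀ ω, 0 < p ω → ∀ i, |(f ω i : ℝ)| ≤ exp (A * (z + X))) :
    CH p f y ≤ aE (Fintype.card ι) A * (z + X * Pb p (fun ω => ¬ E ω)) := by
  have := few_exp hp f y E hA 0 hz (fun ω ω' a b c d e i => by
    rw [pow_zero, mul_one]
    exact h ω ω' a b c d e i) hB
  simpa using this

end Pool.P4
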