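import Pool.Agent.H21.POT.Vis
import Pool.Agent.H89.P4.FewA

/-!
# A flag in the abstract time

`QH.flag`: the event `F` is added to the abstract time.
-/

set_option autoImplicit false

namespace Pool.QT64

open Finset Real
open Pool.Agent.H49.Ent Pool.Agent.H32.Dense Pool.STK Pool.KS6 Pool.SLO
open Pool.BFL (Pb)
open Pool.QC (QD nfb)

variable {c k : ℕ}

/-- The flag `F` is added to the time. -/
def QH.flag (H : QH c k) (F : H.Ω → Prop) : QH c k where
  Ω := H.Ω
  iΩ := H.iΩ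
  B := H.B
  Vt := H.Vt
  Tt := H.Tt × Prop
  p := H.p
  b := H.b
  nu := H.nu
  v := H.v
  th := fun ω => (H.th ω, F ω)
  tau := fun t => H.tau t.1
  E := fun t => H.E t.1
  y := H.y
  be := H.be
  g := fun t => H.g t.1
  a0 := fun t => H.a0 t.1
  b0 := H.b0

/-- The entropy of a proposition. -/
theorem CH_prop {Ω S : Type} [Fintype Ω] {p : Ω → ℝ} (hp : IsLaw p) (F : Ω → Prop) (g : Ω → S) :
    CH p F g ≤ Real.log 2 := Pool.MIC.CH_prop_le hp.nonneg hp.sum_one F g

theorem QH.OkNS.flag {H : QH c k} {X : ℕ} {C d : ℝ} (h : H.OkNS X C d) (F : H.Ω → Prop) :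
    (H.flag F).OkNS X C (d + Real.log 2) := by
  have hp := h.law.nonneg
  have l2 : 0 ≤ Real.log 2 := Real.log_nonneg (by norm_num)
  refine
    { law := h.law
      tau_r := h.tau_r
      y_r := h.y_r
      E_b := h.E_b
      be_b := h.be_b
      hgt_b := h.hgt_b
      g_eq := h.g_eq
      h0 := ?_
      h2 := ?_
      y_f := ?_
      t_f := ?_ }
  · change CH H.p (fun ω => (H.th ω, F ω)) H.b - CH H.p (fun ω => (H.th ω, F ω)) H.line ≤ _
    have h1 := h.h0
    have h2 := CH_chain hp F H.th H.b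
    have h3 : CH H.p (fun ω => (H.th ω, F ω)) H.b = CH H.p (fun ω => (F ω, H.th ω)) H.b := by
      refine CH_congr hp ?_ ?_ (fun _ _ _ _ h => h) (fun _ _ _ _ h => h)
      · intro ω ω' _ _ e
        have e1 := (Prod.ext_iff.mp e).1
        exact Prod.ext (Prod.ext_iff.mp e1).2 (Prod.ext_iff.mp e1).1
      · intro ω ω' _ _ e
        have e1 := (Prod.ext_iff.mp e).1
        exact Prod.ext (Prod.ext_iff.mp e1).2 (Prod.ext_iff.mp e1).1
    have h4 : CH H.p H.th H.line ≤ CH H.p (fun ω => (H.th ω, F ω)) H.line :=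
      CH_mono_left hp fun ω ω' _ _ e => (Prod.ext_iff.mp (Prod.ext_iff.mp e).1).1
    have h5 := CH_prop h.law F (fun ω => (H.th ω, H.b ω))
    linarith
  · change CH H.p H.hgt (fun ω => ((H.th ω, F ω), H.b ω)) -
      CH H.p H.hgt (fun ω => (H.v ω, ((H.th ω, F ω), H.b ω))) ≤ _
    have h1 := h.h2
    have h2 : CH H.p H.hgt (fun ω => ((H.th ω, F ω), H.b ω)) ≤
        CH H.p H.hgt (fun ω => (H.th ω, H.b ω)) := CH_mono_cond hp fun ω ω' _ _ e => by
      have e1 := (Prod.ext_iff.mp e).1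
      exact Prod.ext (Prod.ext_iff.mp e1).1 (Prod.ext_iff.mp e).2
    have h3 := CH_le_add hp H.hgt F (fun ω => (H.v ω, (H.th ω, H.b ω)))
    have h4 : CH H.p H.hgt (fun ω => (F ω, (H.v ω, (H.th ω, H.b ω)))) ≤
        CH H.p H.hgt (fun ω => (H.v ω, ((H.th ω, F ω), H.b ω))) :=
      CH_mono_cond hp fun ω ω' _ _ e => by
        have e1 := (Prod.ext_iff.mp e).1
        have e2 := (Prod.ext_iff.mp e).2
        have e3 := (Prod.ext_iff.mp e2).2
        exact Prod.ext (Prod.ext_iff.mp e2).1 (Prod.ext (Prod.ext (Prod.ext_iff.mp e3).1 e1)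
          (Prod.ext_iff.mp e3).2)
    have h5 := CH_prop h.law F (fun ω => (H.v ω, (H.th ω, H.b ω)))
    linarith
  · have := h.y_f
    change k * X * Real.log 2 - _ ≤ CH H.p (fun ω => H.y (H.v ω)) H.b
    linarith
  · have := h.t_f
    change X * Real.log 2 - _ ≤ CH H.p (fun ω => H.tau (H.th ω)) H.b
    linarith

theorem QH.OkNS.mono {H : QH c k} {X : ℕ} {C C' d d' : ℝ} (h : H.OkNS X C d) (hC : C ≤ C')
    (hd : d ≤ d') : H.OkNS X C' d' where
  law := h.law
  tau_r := h.tau_r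
  y_r := h.y_r
  E_b := fun ω u i => (h.E_b ω u i).trans hC
  be_b := fun ω i => (h.be_b ω i).trans hC
  hgt_b := fun ω i => (h.hgt_b ω i).trans (mul_le_mul_of_nonneg_right hC (by positivity))
  g_eq := fun ω ω' i => (h.g_eq ω ω' i).trans hC
  h0 := h.h0.trans hd
  h2 := h.h2.trans hd
  y_f := by
    have := h.y_f
    linarith
  t_f := by
    have := h.t_f
    linarith

end Pool.QT64
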