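import Pool.Agent.H14.P4.Stm

/-!
# Digits of the picture
-/

set_option autoImplicit false

namespace Pool.P4

open Finset Real

variable {X : ℕ}

theorem cl1_le (x : ℝ) : |cl1 x| ≤ 1 := by
  unfold cl1
  rw [abs_le]
  exact ⟨le_max_left _ _, max_le (by norm_num) (min_le_left _ _)⟩

theorem cl1_eq {x : ℝ} (h : |x| ≤ 1) : cl1 x = x := by
  rw [abs_le] at h
  unfold cl1
  rw [min_eq_right h.2, max_eq_right h.1]

theorem cl1_lip (x y : ℝ) : |cl1 x - cl1 y| ≤ |x - y| := by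
  have h1 : |max (-1 : ℝ) (min 1 x) - max (-1) (min 1 y)| ≤ |min 1 x - min 1 y| := by
    have := abs_max_sub_max_le_max (-1 : ℝ) (min 1 x) (-1) (min 1 y)
    rwa [sub_self, abs_zero, max_eq_right (abs_nonneg (min 1 x - min 1 y))] at this
  have h2 : |min 1 x - min 1 y| ≤ |x - y| := by
    have := abs_min_sub_min_le_max (1 : ℝ) x 1 y
    rwa [sub_self, abs_zero, max_eq_right (abs_nonneg (x - y))] at this
  exact h1.trans h2

theorem dg_near {x : ℝ} (h : |x| ≤ 1) : |(dg X x : ℝ) - 2 ^ X * x| ≤ 1 := by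
  unfold dg
  rw [cl1_eq h, abs_le]
  constructor <;> linarith [Int.floor_le (2 ^ X * x), Int.lt_floor_add_one (2 ^ X * x)]

theorem dg_abs (x : ℝ) : |dg X x| ≤ 2 ^ X := by
  have h := cl1_le x
  rw [abs_le] at h
  have hA : (0 : ℝ) < 2 ^ X := by positivity
  unfold dg
  rw [abs_le]
  constructor
  · rw [Int.le_floor]
    push_cast
    nlinarith
  · have : (⌊2 ^ X * cl1 x⌋ : ℝ) ≤ ((2 ^ X : ℤ) : ℝ) := by
      push_cast
      exact (Int.floor_le _).trans (by nlinarith)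
    exact_mod_cast this

theorem floor_near {a b c : ℝ} (h : |a - b| ≤ c) : |((⌊a⌋ - ⌊b⌋ : ℤ) : ℝ)| ≤ c + 1 := by
  rw [abs_le] at h ⊢
  push_cast
  constructor <;>
    linarith [Int.floor_le a, Int.lt_floor_add_one a, Int.floor_le b, Int.lt_floor_add_one b]

theorem dg_lip {x y : ℝ} (h : 2 ^ X * |x - y| ≤ 1) : |dg X x - dg X y| ≤ 2 := by
  unfold dg
  have h1 : |2 ^ X * cl1 x - 2 ^ X * cl1 y| ≤ 1 := by
    rw [← mul_sub, abs_mul, abs_of_pos (by positivity : (0 : ℝ) < 2 ^ X)]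
    exact (mul_le_mul_of_nonneg_left (cl1_lip x y) (by positivity)).trans h
  have h2 := floor_near h1
  have h3 : ((|⌊2 ^ X * cl1 x⌋ - ⌊2 ^ X * cl1 y⌋| : ℤ) : ℝ) ≤ ((2 : ℤ) : ℝ) := by
    rw [Int.cast_abs]
    refine h2.trans ?_
    norm_num
  exact_mod_cast h3

theorem clip_lip (m a b : ℤ) : |max 0 (min m a) - max 0 (min m b)| ≤ |a - b| := by
  have h1 : |max (0 : ℤ) (min m a) - max 0 (min m b)| ≤ |min m a - min m b| := by
    have := abs_max_sub_max_le_max (0 : ℤ) (min m a) 0 (min m b)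
    rwa [sub_self, abs_zero, max_eq_right (abs_nonneg (min m a - min m b))] at this
  have h2 : |min m a - min m b| ≤ |a - b| := by
    have := abs_min_sub_min_le_max m a m b
    rwa [sub_self, abs_zero, max_eq_right (abs_nonneg (a - b))] at this
  exact h1.trans h2

theorem dgp_lip {x y : ℝ} (h : 2 ^ X * |x - y| ≤ 1) : |dgp X x - dgp X y| ≤ 2 := by
  unfold dgp
  refine (clip_lip _ _ _).trans ?_
  have h1 : |2 ^ X * x - 2 ^ X * y| ≤ 1 := by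
    rw [← mul_sub, abs_mul, abs_of_pos (by positivity : (0 : ℝ) < 2 ^ X)]
    exact h
  have h2 := floor_near h1
  have h3 : ((|⌊2 ^ X * x⌋ - ⌊2 ^ X * y⌋| : ℤ) : ℝ) ≤ ((2 : ℤ) : ℝ) := by
    rw [Int.cast_abs]
    refine h2.trans ?_
    norm_num
  exact_mod_cast h3

theorem dgp_abs (x : ℝ) : |dgp X x| ≤ 2 ^ X := by
  have hA : (0 : ℤ) < 2 ^ X := by positivity
  unfold dgp
  rw [abs_of_nonneg (le_max_left _ _)]
  refine max_le hA.le ((min_le_left _ _).trans (by linarith))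

theorem dgp_near {x : ℝ} (h0 : 0 ≤ x) (h1 : x ≤ 1) : |(dgp X x : ℝ) - 2 ^ X * x| ≤ 1 := by
  have hA : (0 : ℝ) < 2 ^ X := by positivity
  have e0 : 0 ≤ ⌊2 ^ X * x⌋ := Int.floor_nonneg.2 (by positivity)
  have hA1 : (1 : ℤ) ≤ 2 ^ X := one_le_pow₀ (by norm_num)
  have f1 := Int.floor_le (2 ^ X * x)
  have f2 := Int.lt_floor_add_one (2 ^ X * x)
  unfold dgp
  rcases le_total (2 ^ X - 1 : ℤ) ⌊2 ^ X * x⌋ with h | h
  · rw [min_eq_left h, max_eq_right (by linarith)]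
    have h' : ((2 ^ X - 1 : ℤ) : ℝ) ≤ ⌊2 ^ X * x⌋ := by exact_mod_cast h
    push_cast at h' ⊢
    rw [abs_le]
    constructor
    · nlinarith
    · linarith
  · rw [min_eq_right h, max_eq_right e0, abs_le]
    constructor <;> linarith

/-- A product of rounded numbers. -/
theorem mul_near {A s σ e t τ f : ℝ} (hA : 1 ≤ A) (hs : s = A * σ + e) (ht : t = A * τ + f)
    (he : |e| ≤ 1) (hf : |f| ≤ 1) (hσ : |σ| ≤ 1) (hτ : |τ| ≤ 1) :
    |s / A * t - A * (σ * τ)| ≤ 3 := by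
  have hA0 : 0 < A := by linarith
  have e1 : s / A * t - A * (σ * τ) = σ * f + e * τ + e * f / A := by
    rw [hs, ht]
    field_simp
    ring
  rw [e1]
  have h1 : |σ * f| ≤ 1 := by
    rw [abs_mul]
    exact mul_le_one₀ hσ (abs_nonneg _) hf
  have h2 : |e * τ| ≤ 1 := by
    rw [abs_mul]
    exact mul_le_one₀ he (abs_nonneg _) hτ
  have h3 : |e * f / A| ≤ 1 := by
    rw [abs_div, abs_mul, abs_of_pos hA0, div_le_one hA0]
    exact (mul_le_one₀ he (abs_nonneg _) hf).trans hA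
  calc _ ≤ |σ * f| + |e * τ| + |e * f / A| := abs_add_three _ _ _
    _ ≤ 3 := by linarith

/-- **The height of the picture.** -/
theorem hgt_arith {k X : ℕ} {Rg Ry zu bu ρ : ℝ} {S z0 : Fin k → ℝ} {tq : ℤ} (hRg : 0 < Rg)
    (hRy : 0 < Ry) (h1 : |zu| ≤ Rg) (h2 : |bu| ≤ Rg) (h3 : ∀ a, |S a * (2 * Ry)| ≤ Rg)
    (h4 : ∀ a, |z0 a| ≤ Ry) (h5 : |ρ| ≤ 1) (h6 : |(tq : ℝ) - 2 ^ X * ρ| ≤ 1) :
    |((dg X (zu / Rg) + ⌊(tq : ℝ) * ((dg X (bu / Rg) : ℝ) / 2 ^ X) -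
      ∑ a, (dg X (S a * (2 * Ry) / Rg) : ℝ) / 2 ^ X * dgp X ((z0 a + Ry) / (2 * Ry)) +
      ∑ a, (dg X (S a * (2 * Ry) / Rg) : ℝ) / 2⌋ : ℤ) : ℝ) -
      2 ^ X / Rg * (zu + ρ * bu - ∑ a, S a * z0 a)| ≤ 5 + 4 * k := by
  have hA : (1 : ℝ) ≤ 2 ^ X := one_le_pow₀ (by norm_num)
  have a1 : |(dg X (zu / Rg) : ℝ) - 2 ^ X * (zu / Rg)| ≤ 1 := dg_near (by
    rw [abs_div, abs_of_pos hRg, div_le_one hRg]
    exact h1)
  have b0 : |bu / Rg| ≤ 1 := by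
    rw [abs_div, abs_of_pos hRg, div_le_one hRg]
    exact h2
  have a2 : |(dg X (bu / Rg) : ℝ) / 2 ^ X * tq - 2 ^ X * (bu / Rg * ρ)| ≤ 3 :=
    mul_near hA (e := dg X (bu / Rg) - 2 ^ X * (bu / Rg)) (f := tq - 2 ^ X * ρ) (by ring)
      (by ring) (dg_near b0) h6 b0 h5
  have s0 : ∀ a, |S a * (2 * Ry) / Rg| ≤ 1 := by
    intro a
    rw [abs_div, abs_of_pos hRg, div_le_one hRg]
    exact h3 a
  have x0 : ∀ a, 0 ≤ (z0 a + Ry) / (2 * Ry) ∧ (z0 a + Ry) / (2 * Ry) ≤ 1 := by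
    intro a
    have := abs_le.1 (h4 a)
    constructor
    · exact div_nonneg (by linarith) (by linarith)
    · rw [div_le_one (by linarith)]
      linarith
  have a3 : ∀ a, |(dg X (S a * (2 * Ry) / Rg) : ℝ) / 2 ^ X * dgp X ((z0 a + Ry) / (2 * Ry)) -
      2 ^ X * (S a * (2 * Ry) / Rg * ((z0 a + Ry) / (2 * Ry)))| ≤ 3 := by
    intro a
    exact mul_near hA (e := dg X (S a * (2 * Ry) / Rg) - 2 ^ X * (S a * (2 * Ry) / Rg))
      (f := dgp X ((z0 a + Ry) / (2 * Ry)) - 2 ^ X * ((z0 a + Ry) / (2 * Ry))) (by ring)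
      (by ring) (dg_near (s0 a)) (dgp_near (x0 a).1 (x0 a).2) (s0 a) (by
        rw [abs_le]
        constructor <;> linarith [(x0 a).1, (x0 a).2])
  have a4 : ∀ a, |(dg X (S a * (2 * Ry) / Rg) : ℝ) / 2 - 2 ^ X * (S a * (2 * Ry) / Rg) / 2| ≤
      1 / 2 := by
    intro a
    have := dg_near (X := X) (s0 a)
    rw [← sub_div, abs_div, abs_of_pos (by norm_num : (0 : ℝ) < 2)]
    linarith
  obtain ⟨P, hP⟩ : ∃ P : ℝ, P = ∑ a, (dg X (S a * (2 * Ry) / Rg) : ℝ) / 2 ^ X *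
    dgp X ((z0 a + Ry) / (2 * Ry)) := ⟨_, rfl⟩
  obtain ⟨Q, hQ⟩ : ∃ Q : ℝ, Q = ∑ a, (dg X (S a * (2 * Ry) / Rg) : ℝ) / 2 := ⟨_, rfl⟩
  have c3 : |P - ∑ a, 2 ^ X * (S a * (2 * Ry) / Rg * ((z0 a + Ry) / (2 * Ry)))| ≤ 3 * k := by
    rw [hP, ← Finset.sum_sub_distrib]
    calc _ ≤ ∑ a : Fin k, (3 : ℝ) := (Finset.abs_sum_le_sum_abs _ _).trans
          (Finset.sum_le_sum fun a _ => a3 a)
      _ = 3 * k := by
        rw [Finset.sum_const, Finset.card_univ, Fintype.card_fin, nsmul_eq_mul]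
        ring
  have c4 : |Q - ∑ a, 2 ^ X * (S a * (2 * Ry) / Rg) / 2| ≤ 1 / 2 * k := by
    rw [hQ, ← Finset.sum_sub_distrib]
    calc _ ≤ ∑ a : Fin k, (1 / 2 : ℝ) := (Finset.abs_sum_le_sum_abs _ _).trans
          (Finset.sum_le_sum fun a _ => a4 a)
      _ = 1 / 2 * k := by
        rw [Finset.sum_const, Finset.card_univ, Fintype.card_fin, nsmul_eq_mul]
        ring
  have c5 : ∑ a, 2 ^ X * (S a * (2 * Ry) / Rg * ((z0 a + Ry) / (2 * Ry))) -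
      ∑ a, 2 ^ X * (S a * (2 * Ry) / Rg) / 2 = 2 ^ X / Rg * ∑ a, S a * z0 a := by
    rw [← Finset.sum_sub_distrib, Finset.mul_sum]
    refine Finset.sum_congr rfl fun a _ => ?_
    have : (2 * Ry) ≠ 0 := by positivity
    field_simp
    ring
  rw [← hP, ← hQ]
  obtain ⟨F, hF⟩ : ∃ F : ℝ, F = (tq : ℝ) * ((dg X (bu / Rg) : ℝ) / 2 ^ X) - P + Q := ⟨_, rfl⟩
  rw [← hF]
  have f1 := Int.floor_le F
  have f2 := Int.lt_floor_add_one F
  have g0 : 2 ^ X / Rg * (zu + ρ * bu - ∑ a, S a * z0 a) =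
      2 ^ X * (zu / Rg) + 2 ^ X * (bu / Rg * ρ) - 2 ^ X / Rg * ∑ a, S a * z0 a := by
    field_simp
  have g1 : (tq : ℝ) * ((dg X (bu / Rg) : ℝ) / 2 ^ X) = (dg X (bu / Rg) : ℝ) / 2 ^ X * tq := by
    ring
  rw [g1] at hF
  rw [g0]
  push_cast
  have k0 : (0 : ℝ) ≤ k := Nat.cast_nonneg k
  rw [abs_le] at a1 a2 c3 c4 ⊢
  constructor <;> linarith [a1.1, a1.2, a2.1, a2.2, c3.1, c3.2, c4.1, c4.2]

/-- The range of the height. -/
theorem hgt_range {k X : ℕ} {a b : ℤ} {s y : Fin k → ℤ} {tq : ℤ} (ha : |a| ≤ 2 ^ X)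
    (hb : |b| ≤ 2 ^ X) (hs : ∀ i, |s i| ≤ 2 ^ X) (hy : ∀ i, |y i| ≤ 2 ^ X) (ht : |tq| ≤ 2 ^ X) :
    |a + ⌊(tq : ℝ) * ((b : ℝ) / 2 ^ X) - ∑ i, (s i : ℝ) / 2 ^ X * y i + ∑ i, (s i : ℝ) / 2⌋| ≤
      (3 + 2 * k) * 2 ^ X := by
  have hA : (1 : ℝ) ≤ 2 ^ X := one_le_pow₀ (by norm_num)
  have hA0 : (0 : ℝ) < 2 ^ X := by positivity
  have ha' : |(a : ℝ)| ≤ 2 ^ X := by exact_mod_cast ha
  have hb' : |(b : ℝ)| ≤ 2 ^ X := by exact_mod_cast hb
  have hs' : ∀ i, |(s i : ℝ)| ≤ 2 ^ X := fun i => by exact_mod_cast hs i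
  have hy' : ∀ i, |(y i : ℝ)| ≤ 2 ^ X := fun i => by exact_mod_cast hy i
  have ht' : |(tq : ℝ)| ≤ 2 ^ X := by exact_mod_cast ht
  have k0 : (0 : ℝ) ≤ k := Nat.cast_nonneg k
  have c1 : |(tq : ℝ) * ((b : ℝ) / 2 ^ X)| ≤ 2 ^ X := by
    rw [abs_mul, abs_div, abs_of_pos hA0]
    calc |(tq : ℝ)| * (|(b : ℝ)| / 2 ^ X) ≤ 2 ^ X * 1 := by
          refine mul_le_mul ht' ?_ (by positivity) hA0.le
          rw [div_le_one hA0]
          exact hb'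
      _ = _ := mul_one _
  have c2 : |∑ i, (s i : ℝ) / 2 ^ X * y i| ≤ k * 2 ^ X := by
    calc _ ≤ ∑ i : Fin k, (2 : ℝ) ^ X := (Finset.abs_sum_le_sum_abs _ _).trans
          (Finset.sum_le_sum fun i _ => by
            rw [abs_mul, abs_div, abs_of_pos hA0]
            calc |(s i : ℝ)| / 2 ^ X * |(y i : ℝ)| ≤ 1 * 2 ^ X := by
                  refine mul_le_mul ?_ (hy' i) (abs_nonneg _) (by norm_num)
                  rw [div_le_one hA0]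
                  exact hs' i
              _ = _ := one_mul _)
      _ = k * 2 ^ X := by
        rw [Finset.sum_const, Finset.card_univ, Fintype.card_fin, nsmul_eq_mul]
  have c3 : |∑ i, (s i : ℝ) / 2| ≤ k * (2 ^ X / 2) := by
    calc _ ≤ ∑ i : Fin k, (2 : ℝ) ^ X / 2 := (Finset.abs_sum_le_sum_abs _ _).trans
          (Finset.sum_le_sum fun i _ => by
            rw [abs_div, abs_of_pos (by norm_num : (0 : ℝ) < 2)]
            have := hs' i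
            linarith)
      _ = k * (2 ^ X / 2) := by
        rw [Finset.sum_const, Finset.card_univ, Fintype.card_fin, nsmul_eq_mul]
  obtain ⟨F, hF⟩ : ∃ F : ℝ, F = (tq : ℝ) * ((b : ℝ) / 2 ^ X) - ∑ i, (s i : ℝ) / 2 ^ X * y i +
    ∑ i, (s i : ℝ) / 2 := ⟨_, rfl⟩
  rw [← hF]
  have f1 := Int.floor_le F
  have f2 := Int.lt_floor_add_one F
  have hFF : |F| ≤ 2 ^ X + k * 2 ^ X + k * (2 ^ X / 2) := by
    rw [hF]
    rw [abs_le] at c1 c2 c3 ⊢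
    constructor <;> linarith [c1.1, c1.2, c2.1, c2.2, c3.1, c3.2]
  have key : ((|a + ⌊F⌋| : ℤ) : ℝ) ≤ (((3 + 2 * k) * 2 ^ X : ℤ) : ℝ) := by
    push_cast
    rw [abs_le] at ha' hFF ⊢
    have kA : 0 ≤ (k : ℝ) * 2 ^ X := by positivity
    constructor <;> nlinarith [ha'.1, ha'.2, hFF.1, hFF.2]
  exact_mod_cast key

end Pool.P4
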