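import Pool.Agent.H89.P4.Few
import Pool.Agent.H89.P4.Dig
import Pool.Agent.H21.QW.Star

/-!
# P4: (H2)

The height over the own sheet and the own slopes are functions of the visible label at `R`, the
slow coordinates and the velocities are functions of the closed context at `L`, up to `τ`.
-/

set_option autoImplicit false

namespace Pool.P4

open Finset Real MvPolynomial
open Pool.Agent.H49.Ent Pool.Agent.H32.Dense Pool.STK Pool.STAT Pool.MIC.Frm Pool.MIC7 Pool.FRM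
open Pool.GSD Pool.POT
open Pool.BFL (Pb)

/-- The constant of the few values. -/
noncomputable def aC (m R K : ℕ) : ℝ :=
  m * Real.log (2 * R + 1) + Real.log 2 + m * Real.log (2 * K + 1) + m * Real.log 2

theorem aC_nonneg (m R K : ℕ) : 0 ≤ aC m R K := by
  have h1 : 0 ≤ Real.log (2 * (R : ℝ) + 1) := Real.log_nonneg (by
    have : (0 : ℝ) ≤ R := Nat.cast_nonneg R
    linarith)
  have h2 : 0 ≤ Real.log (2 * (K : ℝ) + 1) := Real.log_nonneg (by
    have : (0 : ℝ) ≤ K := Nat.cast_nonneg K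
    linarith)
  have h3 : 0 ≤ Real.log 2 := Real.log_nonneg (by norm_num)
  unfold aC
  positivity

theorem Pb_le_one {Ω : Type} [Fintype Ω] {p : Ω → ℝ} (hp : IsLaw p) (E : Ω → Prop) :
    Pb p E ≤ 1 := by
  have := Pool.MIC.Pb_not hp.sum_one E
  have := Pool.MIC.Pb_nonneg hp.nonneg (fun ω => ¬ E ω)
  linarith

/-- Few values, in the form of the error. -/
theorem few_z {Ω S : Type} [Fintype Ω] {m : ℕ} {p : Ω → ℝ} (hp : IsLaw p) (f : Ω → Fin m → ℤ)
    (y : Ω → S) (E : Ω → Prop) (R K : ℕ) {X z : ℕ} (hz : 1 ≤ z)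
    (h : ∀ ω ω', 0 < p ω → 0 < p ω' → E ω → E ω' → y ω = y ω' → ∀ i, |f ω i - f ω' i| ≤ R)
    (hB : ∀ ω, 0 < p ω → ∀ i, |f ω i| ≤ K * 2 ^ X) :
    CH p f y ≤ aC m R K * (z + X * Pb p (fun ω => ¬ E ω)) := by
  have h1 := few_ev hp f y E R (K * 2 ^ X) h (fun ω hω i => by
    have := hB ω hω i
    push_cast
    exact this)
  obtain ⟨b, hb⟩ : ∃ b, b = Pb p (fun ω => ¬ E ω) := ⟨_, rfl⟩
  have b0 : 0 ≤ b := by
    rw [hb]
    exact Pool.MIC.Pb_nonneg hp.nonneg _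
  have b1 : b ≤ 1 := by
    rw [hb]
    exact Pb_le_one hp _
  rw [← hb] at h1 ⊢
  have hA : (1 : ℝ) ≤ 2 ^ X := one_le_pow₀ (by norm_num)
  have k0 : (0 : ℝ) ≤ K := Nat.cast_nonneg K
  have h2 : Real.log (2 * ((K * 2 ^ X : ℕ) : ℝ) + 1) ≤ X * Real.log 2 + Real.log (2 * K + 1) := by
    rw [← Real.log_pow, ← Real.log_mul (by positivity) (by positivity)]
    refine Real.log_le_log (by positivity) ?_
    push_cast
    nlinarith
  have m0 : (0 : ℝ) ≤ m := Nat.cast_nonneg m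
  have z1 : (1 : ℝ) ≤ z := by exact_mod_cast hz
  have x0 : (0 : ℝ) ≤ X := Nat.cast_nonneg X
  have l1 : 0 ≤ (m : ℝ) * Real.log (2 * (R : ℝ) + 1) + Real.log 2 := by
    have h1 : 0 ≤ Real.log (2 * (R : ℝ) + 1) := Real.log_nonneg (by
      have : (0 : ℝ) ≤ R := Nat.cast_nonneg R
      linarith)
    have h3 : 0 ≤ Real.log 2 := Real.log_nonneg (by norm_num)
    positivity
  have l2 : 0 ≤ (m : ℝ) * Real.log (2 * (K : ℝ) + 1) := by
    have h1 : 0 ≤ Real.log (2 * (K : ℝ) + 1) := Real.log_nonneg (by linarith)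
    positivity
  have l3 : 0 ≤ (m : ℝ) * Real.log 2 := by
    have h3 : 0 ≤ Real.log 2 := Real.log_nonneg (by norm_num)
    positivity
  have h3 : b * (m * Real.log (2 * ((K * 2 ^ X : ℕ) : ℝ) + 1)) ≤
      (m * Real.log 2) * (X * b) + m * Real.log (2 * K + 1) := by
    calc _ ≤ b * (m * (X * Real.log 2 + Real.log (2 * K + 1))) :=
          mul_le_mul_of_nonneg_left (mul_le_mul_of_nonneg_left h2 m0) b0
      _ = (m * Real.log 2) * (X * b) + b * (m * Real.log (2 * K + 1)) := by ring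
      _ ≤ (m * Real.log 2) * (X * b) + 1 * (m * Real.log (2 * K + 1)) := by
          have := mul_le_mul_of_nonneg_right b1 l2
          linarith
      _ = _ := by ring
  have xb : 0 ≤ (X : ℝ) * b := mul_nonneg x0 b0
  unfold aC
  have e1 : ((m : ℝ) * Real.log (2 * R + 1) + Real.log 2) ≤
      ((m : ℝ) * Real.log (2 * R + 1) + Real.log 2) * (z + X * b) := by
    nlinarith
  have e2 : (m : ℝ) * Real.log (2 * K + 1) ≤ (m : ℝ) * Real.log (2 * K + 1) * (z + X * b) := by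
    nlinarith
  have e3 : (m * Real.log 2) * (X * b) ≤ (m * Real.log 2) * (z + X * b) := by
    refine mul_le_mul_of_nonneg_left ?_ l3
    linarith
  calc CH p f y ≤ ((m : ℝ) * Real.log (2 * R + 1) + Real.log 2) +
        (m : ℝ) * Real.log (2 * K + 1) + (m * Real.log 2) * (X * b) := by linarith
    _ ≤ _ := by linarith

/-- The contexts of larger radius. -/
theorem c_up {D : NDat2} {n K J a₀ w₀ z M : ℕ} {lam gam : ℕ → ℝ} {κ C₁ : ℝ} {q : D.Ω → ℝ}
    (h : D.Ok2 n K J a₀ w₀ z M lam gam κ C₁ q) {j : ℕ} (hj : j ≤ M) (i : ℕ) : ∀ s, i + s ≤ M →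
      Det q (D.c (i + s) j) (D.c i j) := by
  intro s
  induction s with
  | zero => exact fun _ ω ω' _ _ e => e
  | succ s ih =>
    intro hs ω ω' a b e
    exact ih (by omega) ω ω' a b (h.c_i (i + s) (by omega) j hj ω ω' a b e)

/-- The contexts of larger radius, from the radius `i - 1`. -/
theorem c_up1 {D : NDat2} {n K J a₀ w₀ z M : ℕ} {lam gam : ℕ → ℝ} {κ C₁ : ℝ} {q : D.Ω → ℝ}
    (h : D.Ok2 n K J a₀ w₀ z M lam gam κ C₁ q) {j : ℕ} (hj : j ≤ M) (i s : ℕ)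
    (hs : i + s ≤ M) : Det q (D.c (i + s) j) (D.c (i - 1) j) := by
  have h3 := c_up h hj (i - 1) (s + (i - (i - 1))) (by omega)
  rwa [show i - 1 + (s + (i - (i - 1))) = i + s by omega] at h3

/-- The relative time. -/
theorem rt_near {D : NDat2} {J w X : ℕ} {ω : D.Ω} (hX : D.X ω 0 = (D.T ω : ℝ) / 2 ^ J)
    (hw : w + X ≤ J) : |rt D J w ω| ≤ 1 ∧ |(tq J w X (D.T ω) : ℝ) - 2 ^ X * rt D J w ω| ≤ 1 := by
  obtain ⟨m, hm⟩ : ∃ m, J = w + X + m := ⟨J - (w + X), by omega⟩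
  obtain ⟨T, hT⟩ : ∃ T, T = D.T ω := ⟨_, rfl⟩
  have e1 : J - w = X + m := by omega
  have e2 : J - w - X = m := by omega
  have e3 : rt D J w ω = ((T % 2 ^ (X + m) : ℕ) : ℝ) / 2 ^ (X + m) := by
    unfold rt t0
    rw [hX, ← hT, e1, hm]
    have h1 : T = T / 2 ^ (X + m) * 2 ^ (X + m) + T % 2 ^ (X + m) := by
      rw [Nat.mul_comm]
      exact (Nat.div_add_mod _ _).symm
    have h2 : (T : ℝ) = ((T / 2 ^ (X + m) * 2 ^ (X + m) : ℕ) : ℝ) +
        ((T % 2 ^ (X + m) : ℕ) : ℝ) := by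
      rw [← Nat.cast_add, ← h1]
    have h3 : (2 : ℝ) ^ (w + X + m) = 2 ^ w * 2 ^ (X + m) := by
      rw [← pow_add, Nat.add_assoc]
    rw [h2, ← sub_div, add_sub_cancel_left, h3]
    obtain ⟨r, hr⟩ : ∃ r : ℝ, r = ((T % 2 ^ (X + m) : ℕ) : ℝ) := ⟨_, rfl⟩
    obtain ⟨u, hu⟩ : ∃ u : ℝ, u = 2 ^ (X + m) := ⟨_, rfl⟩
    have u0 : u ≠ 0 := by
      rw [hu]
      positivity
    rw [← hr, ← hu]
    field_simp
  have h0 : (0 : ℝ) < 2 ^ (X + m) := by positivity
  have e4 : (T % 2 ^ (X + m) : ℕ) < 2 ^ (X + m) := Nat.mod_lt _ (by positivity)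
  have e5 : ((T % 2 ^ (X + m) : ℕ) : ℝ) < 2 ^ (X + m) := by exact_mod_cast e4
  refine ⟨?_, ?_⟩
  · rw [e3, abs_of_nonneg (by positivity), div_le_one h0]
    exact e5.le
  · unfold tq
    rw [← hT, e2, e1, e3]
    obtain ⟨r, hr⟩ : ∃ r, r = T % 2 ^ (X + m) := ⟨_, rfl⟩
    rw [← hr]
    have f1 : (2 : ℝ) ^ X * ((r : ℝ) / 2 ^ (X + m)) = (r : ℝ) / 2 ^ m := by
      rw [pow_add]
      field_simp
    rw [f1]
    have h1 : r / 2 ^ m * 2 ^ m ≤ r := Nat.div_mul_le_self _ _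
    have h2 : r < r / 2 ^ m * 2 ^ m + 2 ^ m := by
      have := Nat.lt_div_mul_add (a := r) (b := 2 ^ m) (by positivity)
      exact this
    have h3 : ((r / 2 ^ m : ℕ) : ℝ) * 2 ^ m ≤ r := by exact_mod_cast h1
    have h4 : (r : ℝ) < ((r / 2 ^ m : ℕ) : ℝ) * 2 ^ m + 2 ^ m := by exact_mod_cast h2
    have hm0 : (0 : ℝ) < 2 ^ m := by positivity
    rw [abs_le]
    constructor
    · have : (r : ℝ) / 2 ^ m ≤ ((r / 2 ^ m : ℕ) : ℝ) + 1 := by
        rw [div_le_iff₀ hm0]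
        linarith
      linarith
    · have : ((r / 2 ^ m : ℕ) : ℝ) ≤ (r : ℝ) / 2 ^ m := by
        rw [le_div_iff₀ hm0]
        exact h3
      linarith

open Classical in
/-- Sums over the slow coordinates. -/
theorem sum_sl {k n : ℕ} {gam : ℕ → ℝ} {ys : Fin k → ℕ} (h1 : ∀ a, sl gam n (ys a))
    (h2 : Function.Injective ys) (h3 : ∀ l, sl gam n l → ∃ a, ys a = l) (f : ℕ → ℝ) :
    ∑ l ∈ (range n).filter (sl gam n), f l = ∑ a, f (ys a) := by
  symm
  refine Finset.sum_bij (fun a _ => ys a) ?_ ?_ ?_ ?_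
  · intro a _
    rw [Finset.mem_filter, Finset.mem_range]
    exact ⟨(h1 a).2.1, h1 a⟩
  · intro a _ b _ h
    exact h2 h
  · intro l hl
    obtain ⟨a, ha⟩ := h3 l (Finset.mem_filter.1 hl).2
    exact ⟨a, Finset.mem_univ _, ha⟩
  · intro a _
    rfl

section geo

variable {D : NDat2} {n K K' J a₀ w₀ z M w i j r r' r'' y X : ℕ} {lam gam : ℕ → ℝ}
  {κ C₁ C : ℝ} {q : D.Ω → ℝ} {E : D.Ω → Prop} {P : D.Γ × D.Γ → ℕ → PN}
  {S : D.Ω → ℕ → ℕ → ℝ} {c k : ℕ} {ys : Fin k → ℕ} {gs : Fin c → ℕ}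

theorem Rg_pos (z : ℕ) (C : ℝ) : 0 < Rg z C := by
  unfold Rg
  positivity

theorem Ry_pos (z : ℕ) (C : ℝ) : 0 < Ry z C := by
  unfold Ry
  positivity

theorem Rg_eq (z : ℕ) (C : ℝ) : Rg z C = 2 * (exp (C * z) * exp (C * z)) := by
  unfold Rg
  rw [← Real.exp_add]
  congr 2
  ring

section

variable (H : Hyp D n K K' J a₀ w₀ z M w i j r r' r'' y X lam gam κ C₁ C q E P S ys gs)

include H

theorem Hyp.e1 : 1 ≤ exp (C * z) := by
  have h1 : (1 : ℝ) ≤ z := by exact_mod_cast H.z1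
  have h2 := H.Cg
  exact Real.one_le_exp (by nlinarith)

theorem Hyp.tau : 2 ^ X * (exp (C * z) / 2 ^ (y * z)) ≤ 1 := by
  have h0 : (0 : ℝ) < 2 ^ (y * z) := by positivity
  rw [← mul_div_assoc, div_le_one h0, mul_comm]
  exact H.yX

theorem Hyp.wX : w + X ≤ J := by
  obtain ⟨x, hx, hx'⟩ := H.Xz
  have h1 := H.ok.thin
  have h2 := H.ok.top
  have h3 := H.w2
  have h4 := H.j2
  have h5 : (j + 1) * z ≤ (M + 1) * z := Nat.mul_le_mul_right _ (by omega)
  have h6 : x * z ≤ (M + 1) * z := Nat.mul_le_mul_right _ (by omega)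
  rw [hx]
  omega

theorem Hyp.exp_le_Rg : exp (C * z) ≤ Rg z C := by
  have h1 := H.e1
  rw [Rg_eq]
  nlinarith

theorem Hyp.ys_n (a : Fin k) : 1 ≤ ys a ∧ ys a ≤ n :=
  ⟨(H.ys_sl a).1, (H.ys_sl a).2.1.le⟩

theorem Hyp.gs_n (u : Fin c) : 1 ≤ gs u ∧ gs u ≤ n :=
  ⟨(H.gs_gr u).1, (H.gs_gr u).2.1⟩

/-- **The height of the picture is the height over the own sheet.** -/
theorem Hyp.hgt_nn {ω : D.Ω} (hω : 0 < q ω) (hE : E ω) (u : Fin c) :
    |((qh (c := c) (k := k) D J w z i j r X C P S ys gs q).hgt ω u : ℝ) -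
      2 ^ X / Rg z C * nn D n i j r gam P S ω (gs u)| ≤ 6 + 5 * k := by
  obtain ⟨τ, hτ⟩ : ∃ τ, τ = exp (C * z) / 2 ^ (y * z) := ⟨_, rfl⟩
  have hg := H.geo
  have e1 := H.e1
  have hR := Rg_pos z C
  have hRy := Ry_pos z C
  have hRe := H.exp_le_Rg
  have k0 : (0 : ℝ) ≤ k := Nat.cast_nonneg k
  have hτ0 : 0 ≤ τ := by
    rw [hτ]
    positivity
  obtain ⟨hr1, hr2⟩ := rt_near (D := D) (J := J) (w := w) (X := X) (ω := ω) (H.ok.X_zero ω) H.wX
  have bt := fun l h1 h2 => hg.bt ω hω hE l h1 h2 w H.w1 H.w2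
  have main := hgt_arith (k := k) (X := X) (Rg := Rg z C) (Ry := Ry z C)
    (zu := z0 D J w i j r P ω (gs u)) (bu := be D J w i j r P ω (gs u)) (ρ := rt D J w ω)
    (S := fun a => S ω (gs u) (ys a)) (z0 := fun a => z0 D J w i j r P ω (ys a))
    (tq := ((tq J w X (D.T ω) : ℕ) : ℤ)) hR hRy
    ((bt _ (H.gs_n u).1 (H.gs_n u).2).1.trans hRe) ((bt _ (H.gs_n u).1 (H.gs_n u).2).2.trans hRe)
    (by
      intro a
      have h1 := hg.bS ω hω hE (gs u) (ys a)
      rw [Rg_eq, abs_mul, abs_of_pos (by positivity : (0 : ℝ) < 2 * Ry z C)]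
      unfold Ry
      have := Real.exp_pos (C * z)
      nlinarith)
    (fun a => (bt _ (H.ys_n a).1 (H.ys_n a).2).1) hr1 (by push_cast; exact hr2)
  have eh : ((qh (c := c) (k := k) D J w z i j r X C P S ys gs q).hgt ω u : ℤ) =
      dg X (z0 D J w i j r P ω (gs u) / Rg z C) +
      ⌊(((tq J w X (D.T ω) : ℕ) : ℤ) : ℝ) * ((dg X (be D J w i j r P ω (gs u) / Rg z C) : ℝ) /
        2 ^ X) - ∑ a, (dg X (S ω (gs u) (ys a) * (2 * Ry z C) / Rg z C) : ℝ) / 2 ^ X *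
        dgp X ((z0 D J w i j r P ω (ys a) + Ry z C) / (2 * Ry z C)) +
        ∑ a, (dg X (S ω (gs u) (ys a) * (2 * Ry z C) / Rg z C) : ℝ) / 2⌋ := by
    rw [Int.cast_natCast]
    rfl
  rw [eh]
  have enn : nn D n i j r gam P S ω (gs u) = ze D i j r P ω (gs u) -
      ∑ a, S ω (gs u) (ys a) * ze D i j r P ω (ys a) := by
    unfold nn
    rw [sum_sl H.ys_sl H.ys_in H.ys_on (fun l => S ω (gs u) l * ze D i j r P ω l)]
  have hgr := hg.grp ω hω hE (gs u) (H.gs_gr u) w H.w1 H.w2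
  have hsl : ∀ a, |S ω (gs u) (ys a) * ze D i j r P ω (ys a) -
      S ω (gs u) (ys a) * z0 D J w i j r P ω (ys a)| ≤ exp (C * z) * τ := by
    intro a
    rw [← mul_sub, abs_mul]
    refine mul_le_mul (hg.bS ω hω hE _ _) ?_ (abs_nonneg _) (Real.exp_pos _).le
    rw [hτ]
    exact hg.slow ω hω hE (ys a) (H.ys_sl a) w H.w1 H.w2
  have hsum : |∑ a, S ω (gs u) (ys a) * ze D i j r P ω (ys a) -
      ∑ a, S ω (gs u) (ys a) * z0 D J w i j r P ω (ys a)| ≤ k * (exp (C * z) * τ) := by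
    rw [← Finset.sum_sub_distrib]
    calc _ ≤ ∑ a : Fin k, exp (C * z) * τ := (Finset.abs_sum_le_sum_abs _ _).trans
          (Finset.sum_le_sum fun a _ => hsl a)
      _ = _ := by rw [Finset.sum_const, Finset.card_univ, Fintype.card_fin, nsmul_eq_mul]
  rw [← hτ] at hgr
  have hd : |nn D n i j r gam P S ω (gs u) - (z0 D J w i j r P ω (gs u) +
      rt D J w ω * be D J w i j r P ω (gs u) -
      ∑ a, S ω (gs u) (ys a) * z0 D J w i j r P ω (ys a))| ≤
      (1 + k) * (exp (C * z) * τ) := by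
    rw [enn]
    have h1 : τ ≤ exp (C * z) * τ := by nlinarith
    rw [abs_le] at hgr hsum ⊢
    constructor <;> nlinarith [hgr.1, hgr.2, hsum.1, hsum.2]
  have hs : 2 ^ X / Rg z C * ((1 + k) * (exp (C * z) * τ)) ≤ 1 + k := by
    have h1 := H.tau
    rw [← hτ] at h1
    have h2 : exp (C * z) / Rg z C ≤ 1 := by
      rw [div_le_one hR]
      exact hRe
    have h3 : 2 ^ X / Rg z C * ((1 + k) * (exp (C * z) * τ)) =
        (1 + k) * ((2 ^ X * τ) * (exp (C * z) / Rg z C)) := by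
      field_simp
    rw [h3]
    have h4 : (2 ^ X * τ) * (exp (C * z) / Rg z C) ≤ 1 :=
      mul_le_one₀ h1 (by positivity) h2
    nlinarith
  have hp : 0 < 2 ^ X / Rg z C := by positivity
  have hd' : |2 ^ X / Rg z C * nn D n i j r gam P S ω (gs u) -
      2 ^ X / Rg z C * (z0 D J w i j r P ω (gs u) + rt D J w ω * be D J w i j r P ω (gs u) -
      ∑ a, S ω (gs u) (ys a) * z0 D J w i j r P ω (ys a))| ≤ 1 + k := by
    rw [← mul_sub, abs_mul, abs_of_pos hp]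
    exact (mul_le_mul_of_nonneg_left hd hp.le).trans hs
  rw [abs_le] at main hd' ⊢
  constructor <;> linarith [main.1, main.2, hd'.1, hd'.2]

/-- The height, two samples with the same visible label at `R`. -/
theorem Hyp.hgt_two {ω ω' : D.Ω} (hω : 0 < q ω) (hω' : 0 < q ω') (hE : E ω) (hE' : E ω')
    (hb : bb D i j r ω = bb D i j r ω') (hT : D.T ω = D.T ω')
    (hs : D.s (i - r') (j + r) ω = D.s (i - r') (j + r) ω') (u : Fin c) :
    |(qh (c := c) (k := k) D J w z i j r X C P S ys gs q).hgt ω u -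
      (qh (c := c) (k := k) D J w z i j r X C P S ys gs q).hgt ω' u| ≤
        ((13 + 10 * k : ℕ) : ℤ) := by
  have h1 := H.hgt_nn hω hE u
  have h2 := H.hgt_nn hω' hE' u
  have h3 := (H.geo.right ω ω' hω hω' hE hE' hb hT hs (gs u) (H.gs_gr u)).1
  have h4 := H.tau
  have hR := Rg_pos z C
  have hR1 : 1 ≤ Rg z C := H.e1.trans H.exp_le_Rg
  have h5 : |2 ^ X / Rg z C * nn D n i j r gam P S ω (gs u) -
      2 ^ X / Rg z C * nn D n i j r gam P S ω' (gs u)| ≤ 1 := by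
    rw [← mul_sub, abs_mul, abs_of_pos (by positivity)]
    calc 2 ^ X / Rg z C * |nn D n i j r gam P S ω (gs u) - nn D n i j r gam P S ω' (gs u)| ≤
          2 ^ X / Rg z C * (exp (C * z) / 2 ^ (y * z)) :=
          mul_le_mul_of_nonneg_left h3 (by positivity)
      _ = (2 ^ X * (exp (C * z) / 2 ^ (y * z))) / Rg z C := by ring
      _ ≤ 1 / 1 := div_le_div₀ (by norm_num) h4 (by norm_num) hR1
      _ = 1 := by norm_num
  have key : ((|(qh (c := c) (k := k) D J w z i j r X C P S ys gs q).hgt ω u -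
      (qh (c := c) (k := k) D J w z i j r X C P S ys gs q).hgt ω' u| : ℤ) : ℝ) ≤
      (((13 + 10 * k : ℕ) : ℤ) : ℝ) := by
    push_cast
    rw [abs_le] at h1 h2 h5 ⊢
    constructor <;> linarith [h1.1, h1.2, h2.1, h2.2, h5.1, h5.2]
  exact_mod_cast key

/-- The own slopes, two samples with the same visible label at `R`. -/
theorem Hyp.S_two {ω ω' : D.Ω} (hω : 0 < q ω) (hω' : 0 < q ω') (hE : E ω) (hE' : E ω')
    (hb : bb D i j r ω = bb D i j r ω') (hT : D.T ω = D.T ω')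
    (hs : D.s (i - r') (j + r) ω = D.s (i - r') (j + r) ω') (u : Fin c) (a : Fin k) :
    |Sv (c := c) (k := k) D z X C S ys gs ω u a - Sv D z X C S ys gs ω' u a| ≤
      ((2 : ℕ) : ℤ) := by
  have h3 := (H.geo.right ω ω' hω hω' hE hE' hb hT hs (gs u) (H.gs_gr u)).2 (ys a) (H.ys_sl a)
  have h4 := H.tau
  have hR := Rg_pos z C
  have hRy := Ry_pos z C
  refine dg_lip ?_
  have e1 : S ω (gs u) (ys a) * (2 * Ry z C) / Rg z C - S ω' (gs u) (ys a) * (2 * Ry z C) / Rg z C =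
      (S ω (gs u) (ys a) - S ω' (gs u) (ys a)) * (2 * Ry z C / Rg z C) := by ring
  have e2 : 2 * Ry z C / Rg z C ≤ 1 := by
    rw [div_le_one hR, Rg_eq]
    unfold Ry
    have := H.e1
    nlinarith [Real.exp_pos (C * z)]
  rw [e1, abs_mul, abs_of_pos (by positivity : 0 < 2 * Ry z C / Rg z C)]
  calc 2 ^ X * (|S ω (gs u) (ys a) - S ω' (gs u) (ys a)| * (2 * Ry z C / Rg z C)) ≤
        2 ^ X * ((exp (C * z) / 2 ^ (y * z)) * 1) := by
        refine mul_le_mul_of_nonneg_left ?_ (by positivity)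
        exact mul_le_mul h3 e2 (by positivity) (by positivity)
    _ ≤ 1 := by rwa [mul_one]

/-- The data of the line, two samples with the same closed context at `L`. -/
theorem Hyp.v_two {ω ω' : D.Ω} (hω : 0 < q ω) (hω' : 0 < q ω') (hE : E ω) (hE' : E ω')
    (hb : bb D i j r ω = bb D i j r ω') (hc : D.c (i + r') (j - r) ω = D.c (i + r') (j - r) ω')
    (hT : D.T ω / 2 ^ (J - w) = D.T ω' / 2 ^ (J - w)) :
    (∀ a, |yv (k := k) D J w z i j r X C P ys ω a - yv D J w z i j r X C P ys ω' a| ≤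
      ((2 : ℕ) : ℤ)) ∧
    ∀ u, |bev (c := c) D J w z i j r X C P gs ω u - bev D J w z i j r X C P gs ω' u| ≤
      ((2 : ℕ) : ℤ) := by
  have h3 := H.geo.left ω ω' hω hω' hE hE' hb hc w H.w1 H.w2 hT
  have h4 := H.tau
  have hR := Rg_pos z C
  have hRy := Ry_pos z C
  have hR1 : 1 ≤ Rg z C := H.e1.trans H.exp_le_Rg
  have hRy1 : 1 ≤ 2 * Ry z C := by
    have : 1 ≤ Ry z C := H.e1
    linarith
  have hτ0 : 0 ≤ exp (C * z) / 2 ^ (y * z) := by positivity
  constructor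
  · intro a
    have h5 := h3.1 (ys a) (H.ys_sl a)
    refine dgp_lip ?_
    rw [← sub_div, abs_div, abs_of_pos (by positivity : (0 : ℝ) < 2 * Ry z C),
      add_sub_add_right_eq_sub]
    calc 2 ^ X * (|z0 D J w i j r P ω (ys a) - z0 D J w i j r P ω' (ys a)| / (2 * Ry z C)) ≤
          2 ^ X * ((exp (C * z) / 2 ^ (y * z)) / 1) := by
          refine mul_le_mul_of_nonneg_left ?_ (by positivity)
          exact div_le_div₀ hτ0 h5 (by norm_num) hRy1
      _ ≤ 1 := by rwa [div_one]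
  · intro u
    have h5 := h3.2 (gs u) (H.gs_gr u)
    refine dg_lip ?_
    rw [← sub_div, abs_div, abs_of_pos hR]
    calc 2 ^ X * (|be D J w i j r P ω (gs u) - be D J w i j r P ω' (gs u)| / Rg z C) ≤
          2 ^ X * ((exp (C * z) / 2 ^ (y * z)) / 1) := by
          refine mul_le_mul_of_nonneg_left ?_ (by positivity)
          exact div_le_div₀ hτ0 h5 (by norm_num) hR1
      _ ≤ 1 := by rwa [div_one]

end

end geo

end Pool.P4
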