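import Pool.Agent.H89.P4.V3

/-!
# P4: the visible chart of the picture
-/

set_option autoImplicit false

namespace Pool.P4

open Finset Real MvPolynomial
open Pool.Agent.H49.Ent Pool.Agent.H32.Dense Pool.STK Pool.STAT Pool.MIC.Frm Pool.MIC Pool.MIC7
open Pool.FRM Pool.GSD Pool.POT
open Pool.BFL (Pb)
open Pool.QC (nfb)
open Pool.QT64 (QH)

/-- Bounded integer vectors. -/
noncomputable def vecF (m B : ℕ) : Finset (Fin m → ℤ) := Fintype.piFinset fun _ => Finset.Icc (-(B : ℤ)) B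

theorem mem_vecF {m B : ℕ} {x : Fin m → ℤ} (h : ∀ i, |x i| ≤ B) : x ∈ vecF m B := by
  unfold vecF
  rw [Fintype.mem_piFinset]
  intro i
  have := h i
  rw [abs_le] at this
  exact Finset.mem_Icc.2 this

theorem card_vecF (m B : ℕ) : (vecF m B).card = (2 * B + 1) ^ m := by
  unfold vecF
  rw [Fintype.card_piFinset, Finset.prod_const, Finset.card_univ, Fintype.card_fin]
  congr 1
  rw [Int.card_Icc]
  omega

/-- The constant of the ranges. -/
noncomputable def aW (k : ℕ) : ℝ := Real.log (3 * (3 + 2 * k)) + 1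

theorem aW_nonneg (k : ℕ) : 0 ≤ aW k := by
  have k0 : (0 : ℝ) ≤ k := Nat.cast_nonneg k
  have := Real.log_nonneg (show (1 : ℝ) ≤ 3 * (3 + 2 * k) by linarith)
  unfold aW
  linarith

theorem log_rng (k X : ℕ) :
    Real.log (((2 * ((3 + 2 * k) * 2 ^ X) + 1 : ℕ) : ℝ)) ≤ aW k - 1 + X := by
  have k0 : (0 : ℝ) ≤ k := Nat.cast_nonneg k
  have x0 : (0 : ℝ) ≤ X := Nat.cast_nonneg X
  have hA : (1 : ℝ) ≤ 2 ^ X := one_le_pow₀ (by norm_num)
  have l2 : Real.log 2 ≤ 1 := by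
    have := Real.log_le_sub_one_of_pos (by norm_num : (0 : ℝ) < 2)
    linarith
  have h1 : Real.log (((2 * ((3 + 2 * k) * 2 ^ X) + 1 : ℕ) : ℝ)) ≤
      Real.log (3 * (3 + 2 * k) * 2 ^ X) := by
    refine Real.log_le_log (by positivity) ?_
    push_cast
    nlinarith
  rw [Real.log_mul (by positivity) (by positivity), Real.log_pow] at h1
  unfold aW
  nlinarith

/-- The price of an event. -/
theorem rng_err {m k X z : ℕ} {b : ℝ} (hz : 1 ≤ z) (b0 : 0 ≤ b) (b1 : b ≤ 1) :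
    b * (m * (aW k - 1 + X)) ≤ m * aW k * (z + X * b) := by
  have z1 : (1 : ℝ) ≤ z := by exact_mod_cast hz
  have x0 : (0 : ℝ) ≤ X := Nat.cast_nonneg X
  have m0 : (0 : ℝ) ≤ m := Nat.cast_nonneg m
  have k0 : (0 : ℝ) ≤ k := Nat.cast_nonneg k
  have hW : 0 ≤ aW k - 1 := by
    have := Real.log_nonneg (show (1 : ℝ) ≤ 3 * (3 + 2 * k) by linarith)
    unfold aW
    linarith
  have xb : 0 ≤ (X : ℝ) * b := mul_nonneg x0 b0
  have h1 : b * (aW k - 1 + X) ≤ aW k * (z + X * b) := by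
    have h2 : b * (aW k - 1) ≤ (aW k - 1) * z := by nlinarith
    nlinarith
  calc _ = m * (b * (aW k - 1 + X)) := by ring
    _ ≤ m * (aW k * (z + X * b)) := mul_le_mul_of_nonneg_left h1 m0
    _ = _ := by ring

open Classical in
/-- The visible slow coordinates, with the flag. -/
noncomputable def yF {D : NDat2} {k : ℕ} (E : D.Ω → Prop) (y : D.Ω → Fin k → ℤ) (ω : D.Ω) :
    Fin k → ℤ := if E ω then y ω else 0

open Classical in
/-- The visible heights, with the flag. -/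
noncomputable def nF {D : NDat2} {c : ℕ} (E : D.Ω → Prop) (x h : D.Ω → Fin c → ℤ) (ω : D.Ω) :
    Fin c → ℤ := if E ω then x ω else h ω

open Classical in
/-- The change of the chart, with the flag. -/
noncomputable def MF {D : NDat2} {c : ℕ} {Sg : Type} (i j r : ℕ) (E : D.Ω → Prop)
    (s : D.Ω → Sg) (Mx : D.Γ × D.Γ → Sg → Matrix (Fin c) (Fin c) ℝ) (ω : D.Ω) :
    Matrix (Fin c) (Fin c) ℝ := if E ω then Mx (bb D i j r ω) (s ω) else 1

section

variable {D : NDat2} {n K K' J a₀ w₀ z M w i j r r' r'' y X : ℕ} {lam gam : ℕ → ℝ}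
  {κ C₁ C : ℝ} {q : D.Ω → ℝ} {E : D.Ω → Prop} {P : D.Γ × D.Γ → ℕ → PN}
  {S : D.Ω → ℕ → ℕ → ℝ} {c k : ℕ} {ys : Fin k → ℕ} {gs : Fin c → ℕ}

/-- The range of the height. -/
theorem hgt_bd (h : w + X ≤ J) (ω : D.Ω) (u : Fin c) :
    |(qh (c := c) (k := k) D J w z i j r X C P S ys gs q).hgt ω u| ≤ (3 + 2 * k) * 2 ^ X := by
  have ht : |((tq J w X (D.T ω) : ℕ) : ℤ)| ≤ 2 ^ X := by
    rw [abs_of_nonneg (by positivity)]
    have h1 : tq J w X (D.T ω) < 2 ^ X := by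
      unfold tq
      rw [Nat.div_lt_iff_lt_mul (by positivity), ← pow_add,
        show X + (J - w - X) = J - w by omega]
      exact Nat.mod_lt _ (by positivity)
    exact_mod_cast h1.le
  have := hgt_range (k := k) (X := X) (a := dg X (z0 D J w i j r P ω (gs u) / Rg z C))
    (b := dg X (be D J w i j r P ω (gs u) / Rg z C))
    (s := fun a => dg X (S ω (gs u) (ys a) * (2 * Ry z C) / Rg z C))
    (y := fun a => dgp X ((z0 D J w i j r P ω (ys a) + Ry z C) / (2 * Ry z C)))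
    (tq := ((tq J w X (D.T ω) : ℕ) : ℤ)) (dg_abs _) (dg_abs _) (fun _ => dg_abs _)
    (fun _ => dgp_abs _) ht
  rw [Int.cast_natCast] at this
  exact this

theorem yF_bd {zd : D.Ω → ℕ → ℝ} (ω : D.Ω) (a : Fin k) :
    |yF E (yD z X C zd ys) ω a| ≤ (3 + 2 * k) * 2 ^ X := by
  have hA : (0 : ℤ) < 2 ^ X := by positivity
  have k0 : (0 : ℤ) ≤ k := Int.natCast_nonneg k
  unfold yF
  split_ifs
  · refine (dgp_abs _).trans ?_
    nlinarith
  · rw [Pi.zero_apply, abs_zero]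
    positivity

theorem nD_bd (k : ℕ) {zd : D.Ω → ℕ → ℝ} (ω : D.Ω) (u : Fin c) :
    |nuD z X C zd gs ω u| ≤ (3 + 2 * k) * 2 ^ X := by
  have hA : (0 : ℤ) < 2 ^ X := by positivity
  have k0 : (0 : ℤ) ≤ k := Int.natCast_nonneg k
  refine (dg_abs _).trans ?_
  nlinarith

theorem yD_bd {zd : D.Ω → ℕ → ℝ} (ω : D.Ω) (a : Fin k) :
    |yD z X C zd ys ω a| ≤ (3 + 2 * k) * 2 ^ X := by
  have hA : (0 : ℤ) < 2 ^ X := by positivity
  have k0 : (0 : ℤ) ≤ k := Int.natCast_nonneg k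
  refine (dgp_abs _).trans ?_
  nlinarith

theorem nF_bd {zd : D.Ω → ℕ → ℝ} (h : w + X ≤ J) (ω : D.Ω) (u : Fin c) :
    |nF E (nuD z X C zd gs) (qh (c := c) (k := k) D J w z i j r X C P S ys gs q).hgt ω u| ≤
      (3 + 2 * k) * 2 ^ X := by
  unfold nF
  split_ifs
  · exact nD_bd k ω u
  · exact hgt_bd h ω u

variable (H : Hyp D n K K' J a₀ w₀ z M w i j r r' r'' y X lam gam κ C₁ C q E P S ys gs)
  {Sg : Type} {s : D.Ω → Sg} {zd : D.Ω → ℕ → ℝ}

include H

theorem Hyp.b1 : Pb q (fun ω => ¬ E ω) ≤ 1 := by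
  have h := H.ok.isLaw
  have := Pool.MIC.Pb_not h.sum_one E
  have := Pool.MIC.Pb_nonneg h.nonneg E
  linarith

/-- **(F)** for the flagged variables. -/
theorem Hyp.hF_flag {Bt : Type} (bt : D.Ω → Bt) {δ0 : ℝ}
    (hF0 : CH q (fun ω => (yD z X C zd ys ω, nuD z X C zd gs ω)) s ≤
      CH q (fun ω => (yD z X C zd ys ω, nuD z X C zd gs ω)) (fun ω => (bt ω, s ω)) + δ0) :
    CH q (fun ω => (yF E (yD z X C zd ys) ω, nF E (nuD z X C zd gs)
        (qh (c := c) (k := k) D J w z i j r X C P S ys gs q).hgt ω)) (fun ω => (E ω, s ω)) ≤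
      CH q (fun ω => (yF E (yD z X C zd ys) ω, nF E (nuD z X C zd gs)
        (qh (c := c) (k := k) D J w z i j r X C P S ys gs q).hgt ω))
        (fun ω => (bt ω, (E ω, s ω))) +
      (δ0 + (1 + 2 * ((k + c : ℕ) * aW k)) * (z + X * Pb q (fun ω => ¬ E ω))) := by
  have hq := H.ok.isLaw
  obtain ⟨hg, hhg⟩ : ∃ hg : D.Ω → Fin c → ℤ, hg =
    (qh (c := c) (k := k) D J w z i j r X C P S ys gs q).hgt := ⟨_, rfl⟩
  rw [← hhg]
  obtain ⟨W, hW⟩ : ∃ W : ℕ, W = (3 + 2 * k) * 2 ^ X := ⟨_, rfl⟩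
  obtain ⟨F, hF⟩ : ∃ F : Finset ((Fin k → ℤ) × (Fin c → ℤ)), F = vecF k W ×ˢ vecF c W :=
    ⟨_, rfl⟩
  have hWz : ∀ x : ℤ, |x| ≤ (3 + 2 * k) * 2 ^ X → |x| ≤ (W : ℤ) := by
    intro x hx
    rw [hW]
    push_cast
    exact hx
  have hcard : Real.log F.card ≤ (k + c : ℕ) * (aW k - 1 + X) := by
    rw [hF, Finset.card_product, card_vecF, card_vecF, ← pow_add]
    push_cast
    rw [Real.log_pow, hW]
    have := log_rng k X
    push_cast at this ⊢
    exact mul_le_mul_of_nonneg_left this (by positivity)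
  have m1 : ∀ ω, 0 < q ω → (yF E (yD z X C zd ys) ω, nF E (nuD z X C zd gs) hg ω) ∈ F := by
    intro ω _
    rw [hF, Finset.mem_product, hhg]
    exact ⟨mem_vecF fun a => hWz _ (yF_bd ω a), mem_vecF fun u => hWz _ (nF_bd H.wX ω u)⟩
  have m2 : ∀ ω, 0 < q ω → (yD z X C zd ys ω, nuD z X C zd gs ω) ∈ F := by
    intro ω _
    rw [hF, Finset.mem_product]
    exact ⟨mem_vecF fun a => hWz _ (yD_bd ω a), mem_vecF fun u => hWz _ (nD_bd k ω u)⟩
  have onE : ∀ ω, E ω → (yF E (yD z X C zd ys) ω, nF E (nuD z X C zd gs) hg ω) =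
      (yD z X C zd ys ω, nuD z X C zd gs ω) := by
    intro ω hω
    unfold yF nF
    rw [if_pos hω, if_pos hω]
  have u1 := flag_up hq (f := fun ω => (yD z X C zd ys ω, nuD z X C zd gs ω)) (g := s)
    (f' := fun ω => (yF E (yD z X C zd ys) ω, nF E (nuD z X C zd gs) hg ω))
    (g' := fun ω => (E ω, s ω)) E (fun ω ω' e => iff_of_eq (Prod.ext_iff.mp e).1)
    (fun ω ω' h1 h2 e => by
      rw [onE ω h1, onE ω' h2]
      exact e) (fun ω ω' _ _ e => (Prod.ext_iff.mp e).2) F m1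
  have u2 := flag_lo hq (f := fun ω => (yD z X C zd ys ω, nuD z X C zd gs ω))
    (g := fun ω => (bt ω, s ω))
    (f' := fun ω => (yF E (yD z X C zd ys) ω, nF E (nuD z X C zd gs) hg ω))
    (g' := fun ω => (bt ω, (E ω, s ω))) E
    (fun ω ω' h1 h2 e => by
      simp only [onE ω h1, onE ω' h2] at e
      exact e) (fun ω ω' h1 h2 e => by
      have e1 := (Prod.ext_iff.mp e).1
      have e2 := (Prod.ext_iff.mp e).2
      exact Prod.ext e1 (Prod.ext (propext ⟨fun _ => h2, fun _ => h1⟩) e2)) F m2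
  have b0 := H.b0
  have b1 := H.b1
  have e1 := mul_le_mul_of_nonneg_left hcard b0
  have e2 := rng_err (m := k + c) (k := k) (X := X) H.z1 b0 b1
  have e3 := H.xb
  have z1 : (1 : ℝ) ≤ z := by exact_mod_cast H.z1
  have x0 : (0 : ℝ) ≤ X := Nat.cast_nonneg X
  have xb : 0 ≤ (X : ℝ) * Pb q (fun ω => ¬ E ω) := mul_nonneg x0 b0
  have l2 : Real.log 2 ≤ 1 := by
    have := Real.log_le_sub_one_of_pos (by norm_num : (0 : ℝ) < 2)
    linarith
  linarith

/-- **Nonfullness** for the flagged variables. -/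
theorem Hyp.nf_flag (n₀ : Fin c) {B : ℕ} {ν : ℝ}
    (h : nfb q (nuD z X C zd gs) (fun ω => (yD z X C zd ys ω, s ω)) n₀ X B ≤ ν) :
    nfb q (nF E (nuD z X C zd gs) (qh (c := c) (k := k) D J w z i j r X C P S ys gs q).hgt)
      (fun ω => (yF E (yD z X C zd ys) ω, (E ω, s ω))) n₀ X B ≤
      ν + B * (aW k * (z + X * Pb q (fun ω => ¬ E ω))) := by
  have hq := H.ok.isLaw
  obtain ⟨hg, hhg⟩ : ∃ hg : D.Ω → Fin c → ℤ, hg =
    (qh (c := c) (k := k) D J w z i j r X C P S ys gs q).hgt := ⟨_, rfl⟩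
  rw [← hhg]
  have hnb := fun ω u => nF_bd (E := E) (zd := zd) (S := S) (P := P) (ys := ys) (gs := gs)
    (q := q) (i := i) (j := j) (r := r) (z := z) (C := C) (c := c) (k := k) H.wX ω u
  rw [← hhg] at hnb
  have b0 := H.b0
  have b1 := H.b1
  refine le_trans ?_ (add_le_add h le_rfl)
  unfold nfb
  have hsum : (B : ℝ) * (aW k * (z + X * Pb q (fun ω => ¬ E ω))) =
      ∑ _j ∈ Finset.range B, aW k * (z + X * Pb q (fun ω => ¬ E ω)) := by
    rw [Finset.sum_const, Finset.card_range, nsmul_eq_mul]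
  rw [hsum, ← Finset.sum_add_distrib]
  refine Finset.sum_le_sum fun t _ => ?_
  obtain ⟨e1, he1⟩ : ∃ e, e = X - (t + 1) * X / B := ⟨_, rfl⟩
  obtain ⟨e0, he0⟩ : ∃ e, e = X - t * X / B := ⟨_, rfl⟩
  rw [← he1, ← he0]
  have onE : ∀ ω, E ω → nF E (nuD z X C zd gs) hg ω = nuD z X C zd gs ω := by
    intro ω hω
    unfold nF
    rw [if_pos hω]
  have onE' : ∀ ω, E ω → yF E (yD z X C zd ys) ω = yD z X C zd ys ω := by
    intro ω hω
    unfold yF
    rw [if_pos hω]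
  have u1 := flag_up hq
    (f := fun ω => nuD z X C zd gs ω n₀ / 2 ^ e1)
    (g := fun ω => (nuD z X C zd gs ω n₀ / 2 ^ e0,
      ((fun u : {u : Fin c // u ≠ n₀} => nuD z X C zd gs ω u / 2 ^ e1),
        (yD z X C zd ys ω, s ω))))
    (f' := fun ω => nF E (nuD z X C zd gs) hg ω n₀ / 2 ^ e1)
    (g' := fun ω => (nF E (nuD z X C zd gs) hg ω n₀ / 2 ^ e0,
      ((fun u : {u : Fin c // u ≠ n₀} => nF E (nuD z X C zd gs) hg ω u / 2 ^ e1),
        (yF E (yD z X C zd ys) ω, (E ω, s ω))))) E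
    (fun ω ω' e => by
      have f1 := (Prod.ext_iff.mp e).2
      have f2 := (Prod.ext_iff.mp f1).2
      have f3 := (Prod.ext_iff.mp f2).2
      exact iff_of_eq (Prod.ext_iff.mp f3).1)
    (fun ω ω' h1 h2 e => by
      simp only [onE ω h1, onE ω' h2]
      exact e)
    (fun ω ω' h1 h2 e => by
      simp only [onE ω h1, onE ω' h2, onE' ω h1, onE' ω' h2] at e
      have f0 := (Prod.ext_iff.mp e).1
      have f1 := (Prod.ext_iff.mp e).2
      have f2 := (Prod.ext_iff.mp f1).2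
      have f3 := (Prod.ext_iff.mp f2).2
      exact Prod.ext f0 (Prod.ext (Prod.ext_iff.mp f1).1 (Prod.ext (Prod.ext_iff.mp f2).1
        (Prod.ext_iff.mp f3).2)))
    (Finset.Icc (-(((3 + 2 * k) * 2 ^ X : ℕ) : ℤ)) (((3 + 2 * k) * 2 ^ X : ℕ) : ℤ))
    (fun ω _ => by
      rw [Finset.mem_Icc, ← abs_le]
      refine (Int.abs_ediv_le_abs _ _).trans ?_
      push_cast
      exact hnb ω n₀)
  have hc : ((Finset.Icc (-(((3 + 2 * k) * 2 ^ X : ℕ) : ℤ)) (((3 + 2 * k) * 2 ^ X : ℕ) : ℤ)).card)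
      = 2 * ((3 + 2 * k) * 2 ^ X) + 1 := by
    rw [Int.card_Icc]
    omega
  rw [hc] at u1
  refine u1.trans (add_le_add le_rfl ?_)
  have e2 := rng_err (m := 1) (k := k) (X := X) H.z1 b0 b1
  rw [Nat.cast_one, one_mul, one_mul] at e2
  exact (mul_le_mul_of_nonneg_left (log_rng k X) b0).trans e2

end

end Pool.P4
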