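import Pool.Agent.H7.MIC.Blk
import Pool.Agent.H7.MIC.Inf
import Pool.Agent.H21.POT.Inf

/-!
# Few values on a large event, and the information between the two sides of a place
-/

set_option autoImplicit false

namespace Pool.P4

open Finset Real
open Pool.Agent.H49.Ent Pool.Agent.H32.Dense Pool.STK Pool.MIC Pool.MIC7
open Pool.POT
open Pool.BFL (Pb)

variable {Ω : Type} [Fintype Ω]

/-- Integer vectors which are near to each other given `y`, on the event `E`. -/
theorem few_ev {S : Type} {m : ℕ} {p : Ω → ℝ} (hp : IsLaw p) (f : Ω → Fin m → ℤ)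
    (y : Ω → S) (E : Ω → Prop) (R B : ℕ) (h : ∀ ω ω', 0 < p ω → 0 < p ω' → E ω → E ω' →
      y ω = y ω' → ∀ i, |f ω i - f ω' i| ≤ R) (hB : ∀ ω, 0 < p ω → ∀ i, |f ω i| ≤ B) :
    CH p f y ≤ m * Real.log (2 * R + 1) + Real.log 2 +
      Pb p (fun ω => ¬ E ω) * (m * Real.log (2 * B + 1)) := by
  have h0 := hp.nonneg
  have a1 := CH_le_add h0 f E y
  have a2 := CH_prop_le h0 hp.sum_one E y
  have a3 : CH p f (fun ω => (E ω, y ω)) = CH p f (fun ω => (y ω, E ω)) := CH_swc h0 f E y
  have a4 := CH_two h0 f y E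
  have b1 : Pb p E * CH (cond p E True) f y ≤ m * Real.log (2 * R + 1) := by
    have hR : 0 ≤ (m : ℝ) * Real.log (2 * R + 1) := by
      have : 0 ≤ Real.log (2 * (R : ℝ) + 1) := Real.log_nonneg (by
        have : (0 : ℝ) ≤ R := Nat.cast_nonneg R
        linarith)
      positivity
    rcases (Pb_nonneg h0 E).eq_or_lt with c0 | c0
    · rw [← c0, zero_mul]
      exact hR
    · have hl := isLaw_ev hp E c0
      have c1 := few_vec hl f y R fun ω ω' hω hω' e i =>
        h ω ω' (ev_pos h0 E hω).1 (ev_pos h0 E hω').1 (ev_pos h0 E hω).2 (ev_pos h0 E hω').2 e i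
      have c2 : Pb p E ≤ 1 := by
        have := Pb_not hp.sum_one E
        have := Pb_nonneg h0 (fun ω => ¬ E ω)
        linarith
      calc _ ≤ Pb p E * (m * Real.log (2 * R + 1)) := mul_le_mul_of_nonneg_left c1 c0.le
        _ ≤ 1 * (m * Real.log (2 * R + 1)) := mul_le_mul_of_nonneg_right c2 hR
        _ = _ := one_mul _
  have b2 : Pb p (fun ω => ¬ E ω) * CH (cond p E False) f y ≤
      Pb p (fun ω => ¬ E ω) * (m * Real.log (2 * B + 1)) := by
    have c1 := cond_false_card hp E f y (Fintype.piFinset fun _ : Fin m =>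
      Finset.Icc (-(B : ℤ)) B) (fun ω hω => by
        rw [Fintype.mem_piFinset]
        intro i
        have := hB ω hω i
        rw [abs_le] at this
        rw [mem_Icc]
        exact this)
    have e : (Fintype.piFinset fun _ : Fin m => Finset.Icc (-(B : ℤ)) B).card =
        (2 * B + 1) ^ m := by
      rw [Fintype.card_piFinset, Finset.prod_const, Finset.card_univ, Fintype.card_fin]
      congr 1
      rw [Int.card_Icc]
      omega
    rw [e] at c1
    push_cast at c1
    rw [Real.log_pow] at c1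
    exact c1
  linarith

/-- Functions of the two sides of a place. -/
theorem sides {p : Ω → ℝ} (hp : ∀ ω, 0 ≤ p ω) {SX SY SL SR SW SB : Type} (X : Ω → SX)
    (Y : Ω → SY) (L : Ω → SL) (R : Ω → SR) (W : Ω → SW) (β : Ω → SB) (hβ : Det p L β)
    {e e₁ e₂ : ℝ} (h : MI p L R W ≤ e) (hX : CH p X (fun ω => (R ω, (β ω, W ω))) ≤ e₁)
    (hY : CH p Y (fun ω => (L ω, (β ω, W ω))) ≤ e₂) :
    MI p X Y (fun ω => (β ω, W ω)) ≤ e + e₁ + e₂ := by
  have hβ' : Det p (fun ω => (L ω, W ω)) β := fun w w' a b h' =>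
    hβ w w' a b (Prod.ext_iff.mp h').1
  have a1 : MI p R L (fun ω => (β ω, W ω)) ≤ MI p R L W := MI_cond_right hp hβ'
  have a2 : MI p R L W = MI p L R W := MI_symm hp _ _ _
  have a3 : MI p X Y (fun ω => (β ω, W ω)) ≤
      MI p X (fun ω => (L ω, Y ω)) (fun ω => (β ω, W ω)) :=
    MI_le_right hp fun w w' _ _ h' => (Prod.ext_iff.mp (Prod.ext_iff.mp h').1).2
  have a4 := MI_chain hp X L Y (fun ω => (β ω, W ω))
  have a5 : MI p X Y (fun ω => (L ω, (β ω, W ω))) ≤ e₂ := by
    rw [MI_symm hp]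
    exact (MI_le_CH hp _ _ _).trans hY
  have a6 : MI p X L (fun ω => (β ω, W ω)) ≤
      MI p (fun ω => (R ω, X ω)) L (fun ω => (β ω, W ω)) :=
    MI_le_left hp fun w w' _ _ h' => (Prod.ext_iff.mp (Prod.ext_iff.mp h').1).2
  have a7 := MI_chain_left hp R X L (fun ω => (β ω, W ω))
  have a8 := MI_le_CH hp X L (fun ω => (R ω, (β ω, W ω)))
  linarith

/-- The conditional form. -/
theorem MI_inner {p : Ω → ℝ} (hp : ∀ ω, 0 ≤ p ω) {SX SV SY SZ : Type} (X : Ω → SX) (V : Ω → SV)
    (Y : Ω → SY) (Z : Ω → SZ) : MI p X Y (fun ω => (V ω, Z ω)) ≤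
      MI p (fun ω => (V ω, X ω)) Y Z := by
  rw [MI_chain_left hp]
  have := MI_nonneg hp V Y Z
  linarith

end Pool.P4
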