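import Pool.Agent.H89.P4.V2

/-!
# P4: the visible chart of the picture, the flag and the entropies
-/

set_option autoImplicit false

namespace Pool.P4

open Finset Real MvPolynomial
open Pool.Agent.H49.Ent Pool.Agent.H32.Dense Pool.STK Pool.STAT Pool.MIC.Frm Pool.MIC Pool.MIC7
open Pool.FRM Pool.GSD Pool.POT
open Pool.BFL (Pb)

section flag

variable {Ω : Type} [Fintype Ω] {p : Ω → ℝ}

/-- Variables which are changed off an event, the event is known. -/
theorem flag_up (hp : IsLaw p) {S S' T T' : Type} {f : Ω → S} {g : Ω → T} {f' : Ω → S'}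
    {g' : Ω → T'} (E : Ω → Prop) (hE : ∀ ω ω', g' ω = g' ω' → (E ω ↔ E ω'))
    (hf : ∀ ω ω', E ω → E ω' → f ω = f ω' → f' ω = f' ω')
    (hg : ∀ ω ω', E ω → E ω' → g' ω = g' ω' → g ω = g ω') (F : Finset S')
    (hF : ∀ ω, 0 < p ω → f' ω ∈ F) :
    CH p f' g' ≤ CH p f g + Pb p (fun ω => ¬ E ω) * Real.log F.card := by
  have h0 := hp.nonneg
  have a1 : CH p f' g' = CH p f' (fun ω => (g' ω, E ω)) := by
    refine CH_congr h0 (fun _ _ _ _ h => (Prod.ext_iff.mp h).1)
      (fun _ _ _ _ h => (Prod.ext_iff.mp h).1) ?_ (fun _ _ _ _ h => (Prod.ext_iff.mp h).1)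
    intro ω ω' _ _ e
    exact Prod.ext e (propext (hE ω ω' e))
  have a2 := CH_two h0 f' g' E
  have a3 := CH_two h0 f g E
  have a4 : CH p f (fun ω => (g ω, E ω)) ≤ CH p f g :=
    CH_mono_cond h0 fun ω ω' _ _ e => (Prod.ext_iff.mp e).1
  have a5 : Pb p E * CH (cond p E True) f' g' ≤ Pb p E * CH (cond p E True) f g := by
    rcases (Pb_nonneg h0 E).eq_or_lt with c0 | c0
    · rw [← c0, zero_mul, zero_mul]
    · have hl := isLaw_ev hp E c0
      refine mul_le_mul_of_nonneg_left ?_ c0.le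
      have b1 : CH (cond p E True) f' g' ≤ CH (cond p E True) f g' := by
        refine CH_mono_left hl.nonneg fun ω ω' hω hω' e => ?_
        exact hf ω ω' (ev_pos h0 E hω).2 (ev_pos h0 E hω').2 (Prod.ext_iff.mp e).1
      have b2 : CH (cond p E True) f g' ≤ CH (cond p E True) f g :=
        CH_mono_cond hl.nonneg fun ω ω' hω hω' e =>
          hg ω ω' (ev_pos h0 E hω).2 (ev_pos h0 E hω').2 e
      exact b1.trans b2
  have a6 := cond_false_card hp E f' g' F hF
  have a7 : 0 ≤ Pb p (fun ω => ¬ E ω) * CH (cond p E False) f g := by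
    refine mul_nonneg (Pb_nonneg h0 _) (CH_nonneg (fun ω => ?_) _ _)
    exact cond_nonneg h0 _ _ _
  rw [a1, a2]
  linarith

/-- The converse. -/
theorem flag_lo (hp : IsLaw p) {S S' T T' : Type} {f : Ω → S} {g : Ω → T} {f' : Ω → S'}
    {g' : Ω → T'} (E : Ω → Prop)
    (hf : ∀ ω ω', E ω → E ω' → f' ω = f' ω' → f ω = f ω')
    (hg : ∀ ω ω', E ω → E ω' → g ω = g ω' → g' ω = g' ω') (F : Finset S)
    (hF : ∀ ω, 0 < p ω → f ω ∈ F) :
    CH p f g ≤ CH p f' g' + Real.log 2 + Pb p (fun ω => ¬ E ω) * Real.log F.card := by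
  have h0 := hp.nonneg
  have a0 := CH_le_add h0 f E g
  have a1 := CH_prop_le h0 hp.sum_one E g
  have a2 : CH p f (fun ω => (E ω, g ω)) = CH p f (fun ω => (g ω, E ω)) := CH_swc h0 f E g
  have a3 := CH_two h0 f g E
  have a4 := CH_two h0 f' g' E
  have a5 : CH p f' (fun ω => (g' ω, E ω)) ≤ CH p f' g' :=
    CH_mono_cond h0 fun ω ω' _ _ e => (Prod.ext_iff.mp e).1
  have a6 : Pb p E * CH (cond p E True) f g ≤ Pb p E * CH (cond p E True) f' g' := by
    rcases (Pb_nonneg h0 E).eq_or_lt with c0 | c0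
    · rw [← c0, zero_mul, zero_mul]
    · have hl := isLaw_ev hp E c0
      refine mul_le_mul_of_nonneg_left ?_ c0.le
      have b1 : CH (cond p E True) f g ≤ CH (cond p E True) f' g := by
        refine CH_mono_left hl.nonneg fun ω ω' hω hω' e => ?_
        exact hf ω ω' (ev_pos h0 E hω).2 (ev_pos h0 E hω').2 (Prod.ext_iff.mp e).1
      have b2 : CH (cond p E True) f' g ≤ CH (cond p E True) f' g' :=
        CH_mono_cond hl.nonneg fun ω ω' hω hω' e =>
          hg ω ω' (ev_pos h0 E hω).2 (ev_pos h0 E hω').2 e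
      exact b1.trans b2
  have a7 := cond_false_card hp E f g F hF
  have a8 : 0 ≤ Pb p (fun ω => ¬ E ω) * CH (cond p E False) f' g' := by
    refine mul_nonneg (Pb_nonneg h0 _) (CH_nonneg (fun ω => ?_) _ _)
    exact cond_nonneg h0 _ _ _
  linarith

end flag

end Pool.P4
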